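import Mathlib

set_option autoImplicit false

/-!
# Semigroup identities: light definitions and statements of the leaves
-/

namespace Pool.Agent.N649.SG.Light

/-- terms -/
inductive T where
  | var (n : ℕ)
  | mul (s t : T)

/-- the value of a term -/
def T.val {M : Type} (o : M → M → M) (v : ℕ → M) : T → M
  | .var n => v n
  | .mul s t => o (s.val o v) (t.val o v)

/-- the identities `E` hold -/
def Sa (E : Set (T × T)) {M : Type} (o : M → M → M) : Prop :=
  ∀ p ∈ E, ∀ v : ℕ → M, p.1.val o v = p.2.val o v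

variable {M : Type}

/-- semigroups -/
def SG (o : M → M → M) : Prop := ∀ x y z : M, o (o x y) z = o x (o y z)

/-- rectangular groups: regular semigroups in which `e f e = e` for all idempotents -/
def RectGp (o : M → M → M) : Prop :=
  SG o ∧ (∀ a : M, ∃ x, o (o a x) a = a) ∧ ∀ e f : M, o e e = e → o f f = f → o (o e f) e = e

/-- `x y = x z` -/
def LU (o : M → M → M) : Prop := ∀ x y z : M, o x y = o x z

/-- `y x = z x` -/
def RU (o : M → M → M) : Prop := ∀ x y z : M, o y x = o z x

/-- the power `x ^ (n + 1)` -/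
def pw (o : M → M → M) (x : M) : ℕ → M
  | 0 => x
  | n + 1 => o (pw o x n) x

/-- all products are in subgroups, and `(e y e) ^ (m + 1) = e` for all idempotents `e` -/
def Kern (m : ℕ) (o : M → M → M) : Prop :=
  (∀ x : M, o (pw o x m) (pw o x m) = pw o x m) ∧
  (∀ x y : M, o (pw o (o x y) m) (o x y) = o x y) ∧
  ∀ e y : M, o e e = e → pw o (o (o e y) e) m = e

/-- the elements of `U4` -/
inductive U4 where
  | x
  | p
  | m
  | q

/-- the semigroup with `x m = q`, `x x = x p = x q = p`, where `p, m, q` are left zeros -/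
def u4 : U4 → U4 → U4
  | .x, .m => .q
  | .x, _ => .p
  | s, _ => s

/-- the elements of `T4` -/
inductive T4 where
  | o
  | u
  | w
  | a

/-- the semigroup with `u w = w u = a`, all other products are `o` -/
def t4 : T4 → T4 → T4
  | .u, .w => .a
  | .w, .u => .a
  | _, _ => .o

/-- the product of the Rees matrix semigroup over `ZMod p` -/
def rm (p : ℕ) {I K : Type} (P : K → I → ZMod p) (x y : I × ZMod p × K) : I × ZMod p × K :=
  (x.1, x.2.1 + P x.2.2 y.1 + y.2.1, y.2.2)

/-- the matrix with one entry `1` -/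
def P2 (p : ℕ) (k i : Bool) : ZMod p := if k = true ∧ i = true then 1 else 0

/-- identities of Rees matrix semigroups -/
def Leaf_D : Prop := ∀ (p : ℕ) (E : Set (T × T)), Sa E (rm p (P2 p)) →
  ∀ (I K : Type) (P : K → I → ZMod p), Sa E (rm p P)

/-- the identities of `U4`: the first two letters -/
def Leaf_A0 : Prop := ∀ E : Set (T × T), Sa E u4 → ∀ (M : Type) (o : M → M → M),
  (∀ x y z, o (o x y) z = o x y) → (∀ x y z, o x (o y z) = o x y) → Sa E o

/-- the identities of the inflations of rectangular bands -/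
def Leaf_B0 : Prop := ∀ E : Set (T × T), Sa E (fun x _ : Bool => x) →
  Sa E (fun _ y : Bool => y) → Sa E (fun _ _ : Bool => false) → ∀ (M : Type) (o : M → M → M),
  (∀ x y z, o (o x y) z = o x z) → (∀ x y z, o x (o y z) = o x z) → Sa E o

/-- varieties without semilattices and nilpotent semigroups -/
def Leaf_E : Prop := ∀ E : Set (T × T), ¬ Sa E or → ¬ Sa E t4 →
  ∃ m : ℕ, ∀ (M : Type) (o : M → M → M), SG o → Sa E o → Kern m o

/-- the act semigroup -/
def Leaf_F : Prop := ∀ (E : Set (T × T)) (m : ℕ) (M : Type) (o : M → M → M),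
  SG o → Sa E o → Kern m o →
  ((∃ x y : M, o (pw o x m) (o x y) ≠ o x y) → Sa E u4) ∧
  ((∃ x y : M, o (o x y) (pw o y m) ≠ o x y) → Sa E fun x y => u4 y x)

/-- inflations -/
def Leaf_G : Prop := ∀ (E : Set (T × T)) (m : ℕ) (M : Type) (o : M → M → M),
  SG o → Sa E o → Kern m o →
  (∀ x y : M, o (pw o x m) (o x y) = o x y) →
  (∀ x y : M, o (o x y) (pw o y m) = o x y) →
  ((∃ x : M, o (pw o x m) x ≠ x) → Sa E (fun _ _ : Bool => false)) ∧
  ((∃ x : M, pw o x (m + 1) ≠ pw o x m) → ∃ p : ℕ, p.Prime ∧ Sa E fun x y : ZMod p => x + y) ∧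
  ((∀ x : M, pw o x (m + 1) = pw o x m) → ¬ RU o → Sa E fun x _ : Bool => x) ∧
  ((∀ x : M, pw o x (m + 1) = pw o x m) → ¬ LU o → Sa E fun _ y : Bool => y)

/-- completely simple semigroups -/
def Leaf_H : Prop := ∀ (E : Set (T × T)) (m : ℕ) (M : Type) (o : M → M → M),
  SG o → Sa E o → Kern m o → (∀ x : M, o (pw o x m) x = x) → ¬ RectGp o →
  ∃ p : ℕ, p.Prime ∧ Sa E (rm p (P2 p))

end Pool.Agent.N649.SG.Light
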