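import Mathlib
import Pool.Agent.N649.SG.Light

set_option autoImplicit false

/-!
# Leaf E: varieties of semigroups without semilattices and nilpotent semigroups (helper271)
-/

namespace Pool.Agent.N649.SG.E

open Light

/-! ## Words in a monoid -/

section

variable {A : Type} [Monoid A]

/-- the identity `s = t` holds for elements of `S` -/
def Idn (S : Set A) (s t : List ℕ) : Prop :=
  ∀ v : ℕ → A, (∀ n, v n ∈ S) → (s.map v).prod = (t.map v).prod

/-- the word `s` with `X` for `x` and `Y` for the other variables -/
def W (x : ℕ) (s : List ℕ) (X Y : A) : A := (s.map fun n => if n = x then X else Y).prod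

lemma W_same (x : ℕ) (s : List ℕ) (Y : A) : W x s Y Y = Y ^ s.length := by
  unfold W
  simp

lemma W_sq (x : ℕ) (s : List ℕ) (Y : A) : W x s (Y ^ 2) Y = Y ^ (s.length + s.count x) := by
  unfold W
  induction s with
  | nil => simp
  | cons a s ih =>
    rw [List.map_cons, List.prod_cons, ih]
    by_cases h : a = x
    · subst h
      rw [if_pos rfl, List.count_cons_self, List.length_cons, ← pow_add]
      congr 1
      ring
    · rw [if_neg h, List.count_cons_of_ne h, List.length_cons, ← pow_succ']
      congr 1
      ring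

lemma W_out (x : ℕ) (s : List ℕ) (X Y : A) (h : x ∉ s) : W x s X Y = Y ^ s.length := by
  unfold W
  rw [List.map_congr_left (g := fun _ => Y)]
  · simp
  · intro a ha
    rw [if_neg]
    rintro rfl
    exact h ha

lemma W_idem (x : ℕ) (s : List ℕ) (X e : A) (he : e * e = e) (h1 : e * X = X) (h2 : X * e = X) :
    e * W x s X e = e * X ^ s.count x := by
  induction s with
  | nil => simp [W]
  | cons a s ih =>
    have hc : W x (a :: s) X e = (if a = x then X else e) * W x s X e := by
      unfold W
      rw [List.map_cons, List.prod_cons]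
    rw [hc]
    by_cases h : a = x
    · subst h
      rw [if_pos rfl, List.count_cons_self]
      calc e * (X * W a s X e) = (e * X) * W a s X e := by rw [mul_assoc]
        _ = X * W a s X e := by rw [h1]
        _ = (X * e) * W a s X e := by rw [h2]
        _ = X * (e * W a s X e) := by rw [mul_assoc]
        _ = X * (e * X ^ s.count a) := by rw [ih]
        _ = (X * e) * X ^ s.count a := by rw [mul_assoc]
        _ = (e * X) * X ^ s.count a := by rw [h1, h2]
        _ = e * (X * X ^ s.count a) := by rw [mul_assoc]
        _ = e * X ^ (s.count a + 1) := by rw [pow_succ']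
    · rw [if_neg h, List.count_cons_of_ne h, ← mul_assoc, he, ih]

/-- the identity `y ^ k = w (x, y)` -/
lemma key {S : Set A} {s t : List ℕ} {x : ℕ} (hxt : x ∉ t) (h : Idn S s t) {X Y : A}
    (hX : X ∈ S) (hY : Y ∈ S) : W x s X Y = Y ^ t.length := by
  rw [← W_out x t X Y hxt]
  refine h _ fun n => ?_
  beta_reduce
  split_ifs
  · exact hX
  · exact hY

variable {S : Set A}

lemma pow_mem' (hS : ∀ x ∈ S, ∀ y ∈ S, x * y ∈ S) {X : A} (hX : X ∈ S) (n : ℕ) :
    X ^ (n + 1) ∈ S := by
  induction n with
  | zero => simpa using hX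
  | succ n ih =>
    rw [pow_succ]
    exact hS _ ih _ hX

lemma pow_mem1 (hS : ∀ x ∈ S, ∀ y ∈ S, x * y ∈ S) {X : A} (hX : X ∈ S) {n : ℕ} (hn : 1 ≤ n) :
    X ^ n ∈ S := by
  obtain ⟨m, rfl⟩ : ∃ m, n = m + 1 := ⟨n - 1, by omega⟩
  exact pow_mem' hS hX m

/-- `Y ^ (a + i b) = Y ^ a` -/
lemma per {Y : A} {n0 b : ℕ} (h : Y ^ n0 = Y ^ (n0 + b)) (a i : ℕ) (ha : n0 ≤ a) :
    Y ^ (a + i * b) = Y ^ a := by
  induction i with
  | zero => simp
  | succ i ih =>
    obtain ⟨c, rfl⟩ := Nat.exists_eq_add_of_le ha
    have e1 : n0 + c + (i + 1) * b = (n0 + b) + (c + i * b) := by ring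
    have e2 : n0 + c + i * b = n0 + (c + i * b) := by ring
    rw [e1, pow_add, ← h, ← pow_add, ← e2, ih]

/-- the union of the groups -/
def K (b : ℕ) (X : A) : Prop := X ^ (b + 1) = X

/-- the basic facts -/
structure Bas (S : Set A) (n0 b : ℕ) : Prop where
  mul : ∀ x ∈ S, ∀ y ∈ S, x * y ∈ S
  hb : 1 ≤ b
  hn : 1 ≤ n0
  per : ∀ Y ∈ S, Y ^ n0 = Y ^ (n0 + b)
  idem : ∀ e ∈ S, e * e = e → ∀ Y ∈ S, (e * Y * e) ^ b = e

lemma bas {s t : List ℕ} {x : ℕ} (hmul : ∀ x ∈ S, ∀ y ∈ S, x * y ∈ S) (hx : x ∈ s)
    (hxt : x ∉ t) (ht : t ≠ []) (h : Idn S s t) : Bas S s.length (s.count x) := by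
  have hb : 1 ≤ s.count x := List.one_le_count_iff.2 hx
  refine ⟨hmul, hb, hb.trans List.count_le_length, ?_, ?_⟩
  · intro Y hY
    rw [← W_same x s Y, key hxt h hY hY, ← W_sq x s Y, key hxt h (pow_mem1 hmul hY one_le_two) hY]
  · intro e he hee Y hY
    have hX : e * Y * e ∈ S := hmul _ (hmul _ he _ hY) _ he
    have h1 : e * (e * Y * e) = e * Y * e := by
      rw [← mul_assoc, ← mul_assoc, hee]
    have h2 : e * Y * e * e = e * Y * e := by
      rw [mul_assoc, hee]
    have h3 := W_idem x s (e * Y * e) e hee h1 h2
    have hpe : ∀ n : ℕ, e ^ (n + 1) = e := by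
      intro n
      induction n with
      | zero => simp
      | succ n ih => rw [pow_succ, ih, hee]
    obtain ⟨l, hl⟩ : ∃ l, t.length = l + 1 :=
      ⟨t.length - 1, by have := List.length_pos_iff.2 ht; omega⟩
    rw [key hxt h hX he, hl, hpe, hee] at h3
    obtain ⟨c, hc⟩ : ∃ c, s.count x = c + 1 := ⟨s.count x - 1, by omega⟩
    rw [hc, pow_succ', ← mul_assoc, h1, ← pow_succ', ← hc] at h3
    exact h3.symm

variable {n0 b : ℕ}

lemma powe {e : A} (he : e * e = e) (n : ℕ) : e ^ (n + 1) = e := by
  induction n with
  | zero => simp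
  | succ n ih => rw [pow_succ, ih, he]

/-- sandwich powers -/
lemma sand (e y : A) (he : e * e = e) (n : ℕ) : (e * y) ^ (n + 1) * e = (e * y * e) ^ (n + 1) := by
  induction n with
  | zero => simp
  | succ n ih =>
    have h1 : e * (e * y * e) = e * y * e := by rw [← mul_assoc, ← mul_assoc, he]
    calc (e * y) ^ (n + 1 + 1) * e = (e * y) ^ (n + 1) * (e * y * e) := by
          rw [pow_succ, mul_assoc]
      _ = (e * y) ^ (n + 1) * (e * (e * y * e)) := by rw [h1]
      _ = ((e * y) ^ (n + 1) * e) * (e * y * e) := (mul_assoc _ _ _).symm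
      _ = (e * y * e) ^ (n + 1 + 1) := by rw [ih, ← pow_succ]

/-- sandwich powers -/
lemma sand' (e y : A) (he : e * e = e) (n : ℕ) :
    e * (y * e) ^ (n + 1) = (e * y * e) ^ (n + 1) := by
  induction n with
  | zero => simp [mul_assoc]
  | succ n ih =>
    have h1 : e * y * e * e = e * y * e := by rw [mul_assoc, he]
    calc e * (y * e) ^ (n + 1 + 1) = (e * y * e) * (y * e) ^ (n + 1) := by
          rw [pow_succ']; simp only [mul_assoc]
      _ = (e * y * e * e) * (y * e) ^ (n + 1) := by rw [h1]
      _ = (e * y * e) * (e * (y * e) ^ (n + 1)) := by rw [mul_assoc (e * y * e)]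
      _ = (e * y * e) ^ (n + 1 + 1) := by rw [ih, ← pow_succ']

lemma K_el (H : Bas S n0 b) {e y : A} (he : e ∈ S) (hee : e * e = e) (hy : y ∈ S) :
    K b (e * y) := by
  obtain ⟨c, hc⟩ : ∃ c, b = c + 1 := ⟨b - 1, by have := H.hb; omega⟩
  have h1 := H.idem e he hee y hy
  unfold K
  calc (e * y) ^ (b + 1) = (e * y) ^ b * (e * y) := pow_succ _ _
    _ = ((e * y) ^ b * e) * y := by rw [mul_assoc]
    _ = e * y := by
      rw [hc, sand e y hee, ← hc, h1]

lemma K_er (H : Bas S n0 b) {e y : A} (he : e ∈ S) (hee : e * e = e) (hy : y ∈ S) :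
    K b (y * e) := by
  obtain ⟨c, hc⟩ : ∃ c, b = c + 1 := ⟨b - 1, by have := H.hb; omega⟩
  have h1 := H.idem e he hee y hy
  unfold K
  calc (y * e) ^ (b + 1) = (y * e) * (y * e) ^ b := pow_succ' _ _
    _ = y * (e * (y * e) ^ b) := by rw [mul_assoc]
    _ = y * e := by
      rw [hc, sand' e y hee, ← hc, h1]

lemma K_id (H : Bas S n0 b) {X : A} (hK : K b X) : X ^ b * X ^ b = X ^ b := by
  obtain ⟨c, hc⟩ : ∃ c, b = c + 1 := ⟨b - 1, by have := H.hb; omega⟩
  have h1 : b + b = (b + 1) + c := by omega
  have h2 : 1 + c = b := by omega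
  rw [← pow_add, h1, pow_add, hK, ← pow_succ', ← hc]

lemma K_mul (H : Bas S n0 b) {X Y : A} (hX : X ∈ S) (hK : K b X) (hY : Y ∈ S) :
    K b (X * Y) := by
  have h1 : X * Y = X ^ b * (X * Y) := by
    rw [← mul_assoc, ← pow_succ, hK]
  rw [h1]
  exact K_el H (pow_mem1 H.mul hX H.hb) (K_id H hK) (H.mul _ hX _ hY)

lemma mul_K (H : Bas S n0 b) {X Y : A} (hX : X ∈ S) (hK : K b X) (hY : Y ∈ S) :
    K b (Y * X) := by
  have h1 : Y * X = (Y * X) * X ^ b := by
    rw [mul_assoc, ← pow_succ', hK]
  rw [h1]
  exact K_er H (pow_mem1 H.mul hX H.hb) (K_id H hK) (H.mul _ hY _ hX)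

lemma K_pow (H : Bas S n0 b) {X : A} (hX : X ∈ S) {n : ℕ} (hn : n0 ≤ n) : K b (X ^ n) := by
  unfold K
  rw [← pow_mul, ← per (H.per X hX) n n hn]
  congr 1
  ring

/-- `X ^ l = X ^ (l + i (l' - l))` -/
lemma per' {Y : A} {p q : ℕ} (h : Y ^ p = Y ^ (p + q)) (i : ℕ) : Y ^ (p + i * q) = Y ^ p := by
  exact per h p i le_rfl

lemma prod_mem (H : Bas S n0 b) (l : List A) (hl : ∀ a ∈ l, a ∈ S) (hn : l ≠ []) :
    l.prod ∈ S := by
  induction l with
  | nil => exact absurd rfl hn
  | cons a l ih =>
    rw [List.prod_cons]
    rcases eq_or_ne l [] with h | h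
    · subst h
      simpa using hl a (by simp)
    · exact H.mul _ (hl a (by simp)) _ (ih (fun c hc => hl c (by simp [hc])) h)

/-- products with a factor in `K` -/
lemma prod_K (H : Bas S n0 b) (l : List A) (hl : ∀ a ∈ l, a ∈ S) (hn : ∃ a ∈ l, K b a) :
    K b l.prod := by
  induction l with
  | nil => simp at hn
  | cons a l ih =>
    rw [List.prod_cons]
    have ha : a ∈ S := hl a (by simp)
    have hl' : ∀ c ∈ l, c ∈ S := fun c hc => hl c (by simp [hc])
    rcases eq_or_ne l [] with h | h
    · subst h
      obtain ⟨c, hc, hK⟩ := hn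
      simp at hc
      subst hc
      simpa using hK
    · have hp : l.prod ∈ S := prod_mem H l hl' h
      obtain ⟨c, hc, hK⟩ := hn
      rcases List.mem_cons.1 hc with rfl | hc
      · exact K_mul H ha hK hp
      · exact mul_K H hp (ih hl' ⟨c, hc, hK⟩) ha

lemma two {x y p q r : ℕ} (h1 : p = x ∨ p = y) (h2 : q = x ∨ q = y) (h3 : r = x ∨ r = y)
    (hpq : p ≠ q) (hqr : q ≠ r) : r = p := by
  omega

lemma fin1 (H : Bas S n0 b) {X : A} (hX : X ∈ S) :
    X ^ (b * n0) * X ^ (b * n0) = X ^ (b * n0) := by
  have h1 := per (H.per X hX) (b * n0) n0 (Nat.le_mul_of_pos_left n0 H.hb)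
  rw [← pow_add]
  calc X ^ (b * n0 + b * n0) = X ^ (b * n0 + n0 * b) := by rw [Nat.mul_comm n0 b]
    _ = X ^ (b * n0) := h1

lemma fin2 (H : Bas S n0 b) {X : A} (hK : K b X) : X ^ (b * n0) * X = X := by
  obtain ⟨c, hc⟩ : ∃ c, n0 = c + 1 := ⟨n0 - 1, by have := H.hn; omega⟩
  rw [pow_mul, hc, powe (K_id H hK), ← pow_succ]
  exact hK

lemma fin3 (H : Bas S n0 b) {e Y : A} (he : e ∈ S) (hee : e * e = e) (hY : Y ∈ S) :
    (e * Y * e) ^ (b * n0) = e := by
  obtain ⟨c, hc⟩ : ∃ c, n0 = c + 1 := ⟨n0 - 1, by have := H.hn; omega⟩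
  rw [pow_mul, H.idem e he hee Y hY, hc, powe hee]

/-- the products are in `K` -/
lemma main_K (H : Bas S n0 b) {u v : List ℕ} (hu : Idn S u v) (hv : v ≠ [])
    (hab : (∃ z, u = [z] ∧ v ≠ [z]) ∨
      (∃ y z, y ≠ z ∧ u = [y, z] ∧ v ≠ [y, z] ∧ v ≠ [z, y])) {X Y : A} (hX : X ∈ S)
    (hY : Y ∈ S) : K b (X * Y) := by
  rcases hab with ⟨z, rfl, hvz⟩ | ⟨x, y, hxy, rfl, h1, h2⟩
  · -- case (a)
    match v, hv, hvz with
    | [], hv, _ => exact absurd rfl hv
    | [w], _, hvz =>
      have hw : w ≠ z := fun h => hvz (by rw [h])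
      have h3 : ∀ P ∈ S, ∀ Q ∈ S, P = Q := by
        intro P hP Q hQ
        have h4 := hu (fun n => if n = z then P else Q) (fun n => by
          beta_reduce
          split_ifs
          · exact hP
          · exact hQ)
        simpa [hw] using h4
      exact h3 _ (pow_mem' H.mul (H.mul _ hX _ hY) b) _ (H.mul _ hX _ hY)
    | w :: w' :: v', _, _ =>
      have h3 : ∀ P ∈ S, P ^ 1 = P ^ (1 + (v'.length + 1)) := by
        intro P hP
        have h4 := hu (fun _ => P) (fun _ => hP)
        simp at h4
        rw [pow_one]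
        calc P = P * (P * P ^ v'.length) := h4
          _ = P ^ (1 + (v'.length + 1)) := by
            rw [← pow_succ', ← pow_succ']
            congr 1
            ring
      have hP := H.mul _ hX _ hY
      have h5 := per' (h3 _ hP) n0
      have h6 := K_pow H hP (n := 1 + n0 * (v'.length + 1)) (by nlinarith)
      rw [h5, pow_one] at h6
      exact h6
  · -- case (b)
    have hid : ∀ P ∈ S, ∀ Q ∈ S, P * Q = (v.map fun n => if n = x then P else Q).prod := by
      intro P hP Q hQ
      have h4 := hu (fun n => if n = x then P else Q) (fun n => by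
          beta_reduce
          split_ifs
          · exact hP
          · exact hQ)
      rw [← h4]
      simp [hxy.symm]
    by_cases hz : ∃ z ∈ v, z ≠ x ∧ z ≠ y
    · obtain ⟨z, hzv, hzx, hzy⟩ := hz
      have h4 := hu (fun n => if n = x then X else if n = y then Y else X ^ n0) (fun n => by
          beta_reduce
          split_ifs
          · exact hX
          · exact hY
          · exact pow_mem1 H.mul hX H.hn)
      have h5 : K b ((v.map fun n => if n = x then X else if n = y then Y else X ^ n0).prod) := by
        apply prod_K H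
        · intro a ha
          rw [List.mem_map] at ha
          obtain ⟨n, _, rfl⟩ := ha
          split_ifs
          · exact hX
          · exact hY
          · exact pow_mem1 H.mul hX H.hn
        · refine ⟨X ^ n0, ?_, K_pow H hX le_rfl⟩
          rw [List.mem_map]
          exact ⟨z, hzv, by simp [hzx, hzy]⟩
      rw [← h4] at h5
      simpa [hxy.symm] using h5
    · push Not at hz
      have hlet : ∀ z ∈ v, z = x ∨ z = y := by
        intro z hzv
        by_cases h : z = x
        · exact Or.inl h
        · exact Or.inr (hz z hzv h)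
      -- squares
      have hsq : 3 ≤ v.length → ∀ P ∈ S, K b (P * P) := by
        intro hl P hP
        have h4 := hid P hP P hP
        simp at h4
        obtain ⟨l, hl'⟩ : ∃ l, v.length = 2 + (l + 1) := ⟨v.length - 3, by omega⟩
        have h5 : P ^ 2 = P ^ (2 + (l + 1)) := by
          rw [← hl', ← h4, sq]
        have h6 := per' h5 n0
        have h7 := K_pow H hP (n := 2 + n0 * (l + 1)) (by nlinarith)
        rw [h6, sq] at h7
        exact h7
      match v, hv, h1, h2, hlet, hid, hsq with
      | [], hv, _, _, _, _, _ => exact absurd rfl hv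
      | [p], _, _, _, hlet, hid, _ =>
        rcases hlet p (by simp) with rfl | rfl
        · -- `X Y = X`
          have h4 := hid X hX (X ^ n0) (pow_mem1 H.mul hX H.hn)
          simp at h4
          have h5 := mul_K H (pow_mem1 H.mul hX H.hn) (K_pow H hX le_rfl) hX
          rw [h4] at h5
          exact K_mul H hX h5 hY
        · have h4 := hid (Y ^ n0) (pow_mem1 H.mul hY H.hn) Y hY
          simp [hxy.symm] at h4
          have h5 := K_mul H (pow_mem1 H.mul hY H.hn) (K_pow H hY le_rfl) hY
          rw [h4] at h5
          exact mul_K H hY h5 hX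
      | [p, q], _, h1, h2, hlet, hid, _ =>
        rcases hlet p (by simp) with rfl | rfl
        · rcases hlet q (by simp) with rfl | rfl
          · -- `X Y = X X`
            have h4 := hid X hX (X ^ n0) (pow_mem1 H.mul hX H.hn)
            have h4' := hid X hX Y hY
            simp at h4 h4'
            have h5 := mul_K H (pow_mem1 H.mul hX H.hn) (K_pow H hX le_rfl) hX
            rw [h4] at h5
            rw [h4']
            exact h5
          · exact absurd rfl h1
        · rcases hlet q (by simp) with rfl | rfl
          · exact absurd rfl h2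
          · have h4 := hid (Y ^ n0) (pow_mem1 H.mul hY H.hn) Y hY
            have h4' := hid X hX Y hY
            simp [hxy.symm] at h4 h4'
            have h5 := K_mul H (pow_mem1 H.mul hY H.hn) (K_pow H hY le_rfl) hY
            rw [h4] at h5
            rw [h4']
            exact h5
      | p :: q :: r :: w, _, _, _, hlet, hid, hsq =>
        have hsq' := hsq (by simp)
        have hF : ∀ n, (if n = x then X else Y) ∈ S := by
          intro n
          split_ifs
          · exact hX
          · exact hY
        have hid' := hid X hX Y hY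
        obtain ⟨F, hFe⟩ : ∃ F : ℕ → A, F = fun n => if n = x then X else Y := ⟨_, rfl⟩
        have hFS : ∀ n, F n ∈ S := by rw [hFe]; exact hF
        have hFx : F x = X := by rw [hFe]; simp
        have hFy : F y = Y := by rw [hFe]; simp [hxy.symm]
        rw [← hFe, List.map_cons, List.map_cons, List.map_cons, List.prod_cons, List.prod_cons,
          List.prod_cons] at hid'
        by_cases hpq : p = q
        · -- a square at the beginning
          subst hpq
          have e1 : K b (((F p * F p) :: (F r :: w.map F)).prod) := by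
            apply prod_K H
            · intro a ha
              simp only [List.mem_cons, List.mem_map] at ha
              rcases ha with rfl | rfl | ⟨n, _, rfl⟩
              · exact H.mul _ (hFS p) _ (hFS p)
              · exact hFS r
              · exact hFS n
            · exact ⟨F p * F p, by simp, hsq' _ (hFS p)⟩
          rw [List.prod_cons, List.prod_cons, mul_assoc] at e1
          rw [hid']
          exact e1
        · by_cases hqr : q = r
          · subst hqr
            have e1 : K b ((F p :: ((F q * F q) :: w.map F)).prod) := by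
              apply prod_K H
              · intro a ha
                simp only [List.mem_cons, List.mem_map] at ha
                rcases ha with rfl | rfl | ⟨n, _, rfl⟩
                · exact hFS p
                · exact H.mul _ (hFS q) _ (hFS q)
                · exact hFS n
              · exact ⟨F q * F q, by simp, hsq' _ (hFS q)⟩
            rw [List.prod_cons, List.prod_cons, mul_assoc (F q)] at e1
            rw [hid']
            exact e1
          · have hrp : r = p := by
              rcases hlet p (by simp) with h5 | h5 <;> rcases hlet q (by simp) with h6 | h6 <;>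
                rcases hlet r (by simp) with h7 | h7 <;> simp_all
            subst hrp
            match w, hlet, hid, hid' with
            | [], hlet, hid, hid' =>
              -- `x y x` or `y x y`
              rw [List.map_nil, List.prod_nil, mul_one] at hid'
              rcases hlet r (by simp) with h5 | h5
              · have h6 : q = y := by
                  rcases hlet q (by simp) with h6 | h6
                  · exact absurd (h5.trans h6.symm) hpq
                  · exact h6
                rw [h5, h6, hFx, hFy] at hid'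
                have h7 : X * Y = X * Y * (X * X) := by
                  calc X * Y = X * (Y * X) := hid'
                    _ = (X * Y) * X := by rw [mul_assoc]
                    _ = (X * (Y * X)) * X := by rw [← hid']
                    _ = X * Y * (X * X) := by simp only [mul_assoc]
                rw [h7]
                exact mul_K H (H.mul _ hX _ hX) (hsq' X hX) (H.mul _ hX _ hY)
              · have h6 : q = x := by
                  rcases hlet q (by simp) with h6 | h6
                  · exact h6
                  · exact absurd (h5.trans h6.symm) hpq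
                rw [h5, h6, hFx, hFy] at hid'
                have h7 : X * Y = (Y * Y) * (X * Y) := by
                  calc X * Y = Y * (X * Y) := hid'
                    _ = Y * (Y * (X * Y)) := congrArg (fun z => Y * z) hid'
                    _ = (Y * Y) * (X * Y) := by simp only [mul_assoc]
                rw [h7]
                exact K_mul H (H.mul _ hY _ hY) (hsq' Y hY) (H.mul _ hX _ hY)
            | d :: w', hlet, hid, hid' =>
              rw [List.map_cons, List.prod_cons] at hid'
              by_cases hdr : d = r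
              · subst hdr
                have e1 : K b ((F d :: F q :: (F d * F d) :: w'.map F).prod) := by
                  apply prod_K H
                  · intro a ha
                    simp only [List.mem_cons, List.mem_map] at ha
                    rcases ha with rfl | rfl | rfl | ⟨n, _, rfl⟩
                    · exact hFS d
                    · exact hFS q
                    · exact H.mul _ (hFS d) _ (hFS d)
                    · exact hFS n
                  · exact ⟨F d * F d, by simp, hsq' _ (hFS d)⟩
                rw [List.prod_cons, List.prod_cons, List.prod_cons, mul_assoc (F d) (F d)] at e1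
                rw [hid']
                exact e1
              · have hdq : d = q :=
                  two (hlet q (by simp)) (hlet r (by simp)) (hlet d (by simp))
                    (fun h => hpq h.symm) (fun h => hdr h.symm)
                subst hdq
                have e1 : K b ((((F r * F d) * (F r * F d)) :: w'.map F).prod) := by
                  apply prod_K H
                  · intro a ha
                    simp only [List.mem_cons, List.mem_map] at ha
                    rcases ha with rfl | ⟨n, _, rfl⟩
                    · exact H.mul _ (H.mul _ (hFS r) _ (hFS d)) _ (H.mul _ (hFS r) _ (hFS d))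
                    · exact hFS n
                  · exact ⟨(F r * F d) * (F r * F d), by simp,
                      hsq' _ (H.mul _ (hFS r) _ (hFS d))⟩
                rw [List.prod_cons] at e1
                rw [hid']
                have e2 : F r * (F d * (F r * (F d * (w'.map F).prod))) =
                    (F r * F d) * (F r * F d) * (w'.map F).prod := by
                  simp only [mul_assoc]
                rw [e2]
                exact e1

end

/-! ## Terms -/

/-- the letters of a term -/
def ls : T → List ℕ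
  | .var n => [n]
  | .mul s t => ls s ++ ls t

lemma ls_ne (t : T) : ls t ≠ [] := by
  induction t with
  | var n => simp [ls]
  | mul s t h1 h2 => simp [ls, h1]

lemma val_or (v : ℕ → Bool) (t : T) : t.val or v = true ↔ ∃ n ∈ ls t, v n = true := by
  induction t with
  | var n => simp [ls, T.val]
  | mul s t h1 h2 =>
    rw [T.val, Bool.or_eq_true, h1, h2]
    simp only [ls, List.mem_append]
    constructor
    · rintro (⟨n, h, h'⟩ | ⟨n, h, h'⟩)
      · exact ⟨n, Or.inl h, h'⟩
      · exact ⟨n, Or.inr h, h'⟩
    · rintro ⟨n, h | h, h'⟩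
      · exact Or.inl ⟨n, h, h'⟩
      · exact Or.inr ⟨n, h, h'⟩

/-- the value in `T4` as a function of the word -/
lemma val_t4 (v : ℕ → T4) (t : T) : (∃ n, ls t = [n] ∧ t.val t4 v = v n) ∨
    (∃ n n', ls t = [n, n'] ∧ t.val t4 v = t4 (v n) (v n')) ∨
    (3 ≤ (ls t).length ∧ t.val t4 v = T4.o) := by
  induction t with
  | var n => exact Or.inl ⟨n, rfl, rfl⟩
  | mul s t h1 h2 =>
    right
    have hO : ∀ p q r : T4, t4 (t4 p q) r = T4.o := by
      intro p q r
      cases p <;> cases q <;> cases r <;> rfl
    have hO' : ∀ p q r : T4, t4 r (t4 p q) = T4.o := by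
      intro p q r
      cases p <;> cases q <;> cases r <;> rfl
    have hL : ∀ q : T4, t4 T4.o q = T4.o := by
      intro q
      cases q <;> rfl
    have hR : ∀ q : T4, t4 q T4.o = T4.o := by
      intro q
      cases q <;> rfl
    have p1 := List.length_pos_iff.2 (ls_ne s)
    have p2 := List.length_pos_iff.2 (ls_ne t)
    rcases h1 with ⟨n, e1, e2⟩ | ⟨n, n', e1, e2⟩ | ⟨e1, e2⟩
    · rcases h2 with ⟨k, f1, f2⟩ | ⟨k, k', f1, f2⟩ | ⟨f1, f2⟩
      · left
        exact ⟨n, k, by simp [ls, e1, f1], by rw [T.val, e2, f2]⟩
      · right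
        refine ⟨by simp [ls, e1, f1], ?_⟩
        rw [T.val, f2, hO']
      · right
        refine ⟨by simp [ls]; omega, ?_⟩
        rw [T.val, f2, hR]
    · right
      refine ⟨by simp only [ls, List.length_append, e1, List.length_cons]; omega, ?_⟩
      rw [T.val, e2, hO]
    · right
      refine ⟨by simp [ls]; omega, ?_⟩
      rw [T.val, e2, hL]

/-- identities of words in all semigroups satisfying `E` -/
def All (E : Set (T × T)) (s t : List ℕ) : Prop :=
  ∀ (M : Type) (o : M → M → M) (h : SG o), Sa E o →
    letI : Semigroup M := { mul := o, mul_assoc := h }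
    Idn (Set.range (fun x : M => (x : WithOne M))) s t

lemma coe_val {M : Type} (o : M → M → M) (h : SG o) (v : ℕ → M) (t : T) :
    letI : Semigroup M := { mul := o, mul_assoc := h }
    ((t.val o v : M) : WithOne M) = ((ls t).map fun n => ((v n : M) : WithOne M)).prod := by
  letI : Semigroup M := { mul := o, mul_assoc := h }
  induction t with
  | var n => simp [ls, T.val]
  | mul s t h1 h2 =>
    show ((s.val o v * t.val o v : M) : WithOne M) = _
    rw [WithOne.coe_mul]
    rw [h1, h2]
    simp [ls]

lemma coe_pw {M : Type} (o : M → M → M) (h : SG o) (x : M) (n : ℕ) :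
    letI : Semigroup M := { mul := o, mul_assoc := h }
    ((pw o x n : M) : WithOne M) = ((x : M) : WithOne M) ^ (n + 1) := by
  letI : Semigroup M := { mul := o, mul_assoc := h }
  induction n with
  | zero => simp [pw]
  | succ n ih =>
    show ((pw o x n * x : M) : WithOne M) = _
    rw [WithOne.coe_mul, pow_succ _ (n + 1)]
    rw [ih]

lemma all_of {E : Set (T × T)} {p : T × T} (hp : p ∈ E) : All E (ls p.1) (ls p.2) := by
  intro M o h hE
  letI : Semigroup M := { mul := o, mul_assoc := h }
  intro f hf
  choose v hv using hf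
  have h1 := hE p hp v
  have h2 := coe_val o h v p.1
  have h3 := coe_val o h v p.2
  have hfe : f = fun n => ((v n : M) : WithOne M) := by
    funext n
    exact (hv n).symm
  rw [hfe]
  rw [← h2, ← h3, h1]

lemma All.symm' {E : Set (T × T)} {s t : List ℕ} (h : All E s t) : All E t s :=
  fun M o hM hE v hv => (h M o hM hE v hv).symm

lemma step1 {E : Set (T × T)} (h : ¬ Sa E or) :
    ∃ (s t : List ℕ) (x : ℕ), x ∈ s ∧ x ∉ t ∧ t ≠ [] ∧ All E s t := by
  unfold Sa at h
  push Not at h
  obtain ⟨p, hp, v, hv⟩ := h
  by_cases h1 : p.1.val or v = true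
  · have h2 : ¬ p.2.val or v = true := fun h2 => hv (h1.trans h2.symm)
    rw [val_or] at h1 h2
    push Not at h2
    obtain ⟨n, hn, hn'⟩ := h1
    exact ⟨ls p.1, ls p.2, n, hn, fun h3 => h2 n h3 hn', ls_ne _, all_of hp⟩
  · have h2 : p.2.val or v = true := by
      by_contra h2
      rw [Bool.not_eq_true] at h1 h2
      exact hv (h1.trans h2.symm)
    rw [val_or] at h1 h2
    push Not at h1
    obtain ⟨n, hn, hn'⟩ := h2
    exact ⟨ls p.2, ls p.1, n, hn, fun h3 => h1 n h3 hn', ls_ne _, (all_of hp).symm'⟩

lemma step2' {v : ℕ → T4} {s t : T} (h : s.val t4 v ≠ t.val t4 v) (ho : s.val t4 v ≠ T4.o) :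
    (∃ z, ls s = [z] ∧ ls t ≠ [z]) ∨
      (∃ y z, y ≠ z ∧ ls s = [y, z] ∧ ls t ≠ [y, z] ∧ ls t ≠ [z, y]) := by
  have hself : ∀ p : T4, t4 p p = T4.o := by
    intro p
    cases p <;> rfl
  have hcomm : ∀ p q : T4, t4 p q = t4 q p := by
    intro p q
    cases p <;> cases q <;> rfl
  rcases val_t4 v s with ⟨n, e1, e2⟩ | ⟨n, n', e1, e2⟩ | ⟨e1, e2⟩
  · left
    refine ⟨n, e1, fun h1 => ?_⟩
    rcases val_t4 v t with ⟨k, f1, f2⟩ | ⟨k, k', f1, f2⟩ | ⟨f1, f2⟩
    · rw [h1] at f1
      simp at f1
      rw [e2, f2, f1] at h
      exact h rfl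
    · rw [h1] at f1
      simp at f1
    · rw [h1] at f1
      simp at f1
  · right
    have hne : n ≠ n' := by
      rintro rfl
      rw [e2, hself] at ho
      exact ho rfl
    refine ⟨n, n', hne, e1, fun h1 => ?_, fun h1 => ?_⟩
    · rcases val_t4 v t with ⟨k, f1, f2⟩ | ⟨k, k', f1, f2⟩ | ⟨f1, f2⟩
      · rw [h1] at f1
        simp at f1
      · rw [h1] at f1
        simp at f1
        rw [e2, f2, f1.1, f1.2] at h
        exact h rfl
      · rw [h1] at f1
        simp at f1
    · rcases val_t4 v t with ⟨k, f1, f2⟩ | ⟨k, k', f1, f2⟩ | ⟨f1, f2⟩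
      · rw [h1] at f1
        simp at f1
      · rw [h1] at f1
        simp at f1
        rw [e2, f2, f1.1, f1.2, hcomm] at h
        exact h rfl
      · rw [h1] at f1
        simp at f1
  · exact absurd e2 ho

lemma step2 {E : Set (T × T)} (h : ¬ Sa E t4) :
    ∃ (u v : List ℕ), v ≠ [] ∧ All E u v ∧ ((∃ z, u = [z] ∧ v ≠ [z]) ∨
      (∃ y z, y ≠ z ∧ u = [y, z] ∧ v ≠ [y, z] ∧ v ≠ [z, y])) := by
  unfold Sa at h
  push Not at h
  obtain ⟨p, hp, v, hv⟩ := h
  by_cases h1 : p.1.val t4 v = T4.o
  · have h2 : p.2.val t4 v ≠ T4.o := fun h2 => hv (h1.trans h2.symm)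
    exact ⟨ls p.2, ls p.1, ls_ne _, (all_of hp).symm', step2' hv.symm h2⟩
  · exact ⟨ls p.1, ls p.2, ls_ne _, all_of hp, step2' hv h1⟩

theorem leaf_E : Light.Leaf_E := by
  intro E hE1 hE2
  obtain ⟨s, t, x, hx, hxt, ht, hst⟩ := step1 hE1
  obtain ⟨u, v, hv, huv, hab⟩ := step2 hE2
  obtain ⟨m, hm⟩ : ∃ m, m + 1 = s.count x * s.length := by
    have h1 : 1 ≤ s.count x := List.one_le_count_iff.2 hx
    have h2 : 1 ≤ s.length := h1.trans List.count_le_length
    have h3 : 1 * 1 ≤ s.count x * s.length := Nat.mul_le_mul h1 h2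
    exact ⟨s.count x * s.length - 1, by omega⟩
  refine ⟨m, fun M o hM hE => ?_⟩
  letI : Semigroup M := { mul := o, mul_assoc := hM }
  obtain ⟨S, hS⟩ : ∃ S : Set (WithOne M), S = Set.range (fun x : M => (x : WithOne M)) :=
    ⟨_, rfl⟩
  have hin : ∀ x : M, (x : WithOne M) ∈ S := by
    intro x
    rw [hS]
    exact ⟨x, rfl⟩
  have hmul : ∀ x ∈ S, ∀ y ∈ S, x * y ∈ S := by
    rw [hS]
    rintro _ ⟨x, rfl⟩ _ ⟨y, rfl⟩
    exact ⟨x * y, WithOne.coe_mul x y⟩
  have hst' : Idn S s t := by
    rw [hS]
    exact hst M o hM hE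
  have huv' : Idn S u v := by
    rw [hS]
    exact huv M o hM hE
  have H := bas hmul hx hxt ht hst'
  refine ⟨fun a => ?_, fun a c => ?_, fun e c he => ?_⟩
  · apply WithOne.coe_injective
    show ((pw o a m * pw o a m : M) : WithOne M) = _
    rw [WithOne.coe_mul, coe_pw o hM, hm]
    exact fin1 H (hin a)
  · apply WithOne.coe_injective
    show ((pw o (o a c) m * (a * c) : M) : WithOne M) = ((a * c : M) : WithOne M)
    rw [WithOne.coe_mul, coe_pw o hM, hm]
    show ((a * c : M) : WithOne M) ^ _ * ((a * c : M) : WithOne M) = ((a * c : M) : WithOne M)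
    rw [WithOne.coe_mul]
    exact fin2 H (main_K H huv' hv hab (hin a) (hin c))
  · apply WithOne.coe_injective
    rw [coe_pw o hM, hm]
    show ((e * c * e : M) : WithOne M) ^ _ = (e : WithOne M)
    rw [WithOne.coe_mul, WithOne.coe_mul]
    have he' : (e : WithOne M) * e = e := by
      rw [← WithOne.coe_mul]
      exact congrArg _ he
    exact fin3 H (hin e) he' (hin c)

end Pool.Agent.N649.SG.E
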