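import Pool.Agent.N649.SG.Light

/-!
Project SG (helper649), problem MP_222443_lc: leaf F (helper901): the act semigroup `U4` divides
the semigroups in which some product leaves the R-class.
-/

set_option autoImplicit false

namespace Pool.Agent.N649.SG.F

open Pool.Agent.N649.SG.Light

/-- identities pass to divisors -/
lemma sa_of_rel {E : Set (T × T)} {M M' : Type} {o : M → M → M} {o' : M' → M' → M'}
    (h : Sa E o) (rho : M → M' → Prop)
    (hc : ∀ a b a' b', rho a a' → rho b b' → rho (o a b) (o' a' b'))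
    (hf : ∀ a a' a'', rho a a' → rho a a'' → a' = a'')
    (hs : ∀ a', ∃ a, rho a a') : Sa E o' := by
  intro p hp v
  choose g hg using hs
  have key : ∀ t : T, rho (t.val o (fun n => g (v n))) (t.val o' v) := by
    intro t
    induction t with
    | var n => exact hg _
    | mul s t ihs iht => exact hc _ _ _ _ ihs iht
  have h1 := key p.1
  have h2 := key p.2
  rw [h p hp] at h1
  exact hf _ _ _ h1 h2

section Powers

variable {S : Type} [Semigroup S]

/-- the power `x ^ (n + 1)` in a semigroup -/
def pq (x : S) : ℕ → S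
  | 0 => x
  | n + 1 => pq x n * x

lemma pq_comm (x : S) (n : ℕ) : pq x n * x = x * pq x n := by
  induction n with
  | zero => rfl
  | succ n ih =>
    simp only [pq]
    rw [ih, mul_assoc, ih]

lemma pq_sq (x : S) (n : ℕ) : pq (x * x) n = pq x n * pq x n := by
  induction n with
  | zero => rfl
  | succ n ih =>
    simp only [pq]
    rw [ih, mul_assoc, mul_assoc, ← mul_assoc (pq x n) x x, pq_comm x n, mul_assoc x (pq x n) x,
      ← mul_assoc (pq x n) x, ← pq_comm x n]
    simp only [mul_assoc]

lemma pq_left (e x : S) (h : e * x = x) (n : ℕ) : e * pq x n = pq x n := by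
  induction n with
  | zero => exact h
  | succ n ih =>
    simp only [pq]
    rw [← mul_assoc, ih]

lemma pq_idem (g : S) (h : g * g = g) (n : ℕ) : pq g n = g := by
  induction n with
  | zero => rfl
  | succ n ih =>
    simp only [pq]
    rw [ih, h]

lemma pq_fac (k t : S) (n : ℕ) : ∃ u, pq k n * t = k * u := by
  cases n with
  | zero => exact ⟨t, rfl⟩
  | succ n => exact ⟨pq k n * t, by simp only [pq]; rw [pq_comm, mul_assoc]⟩

/-- Green's relation -/
def R (a b : S) : Prop := ∃ u v, b = a * u ∧ a = b * v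

lemma R_symm {a b : S} (h : R a b) : R b a := by
  obtain ⟨u, v, h1, h2⟩ := h
  exact ⟨v, u, h2, h1⟩

lemma R_trans {a b c : S} (h : R a b) (h' : R b c) : R a c := by
  obtain ⟨u, v, h1, h2⟩ := h
  obtain ⟨u', v', h1', h2'⟩ := h'
  refine ⟨u * u', v' * v, ?_, ?_⟩
  · rw [h1', h1, mul_assoc]
  · rw [← mul_assoc, ← h2', ← h2]

lemma R_mul {a b : S} (s : S) (h : R a b) : R (s * a) (s * b) := by
  obtain ⟨u, v, h1, h2⟩ := h
  refine ⟨u, v, ?_, ?_⟩
  · rw [mul_assoc, ← h1]
  · rw [mul_assoc, ← h2]

end Powers

section First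

variable {S : Type} [Semigroup S] (m : ℕ)

lemma R_of (h3 : ∀ e y : S, e * e = e → pq (e * y * e) m = e)
    (h1 : ∀ x : S, pq x m * pq x m = pq x m) {k k' : S} (hk : pq k m * k = k)
    (h : pq k m * k' = k') : R k k' := by
  set e := pq k m with he
  set f := pq k' m with hf
  have hee : e * e = e := h1 k
  have hff : f * f = f := h1 k'
  have hef : e * f = f := pq_left e k' h m
  have h4 : e * f * e = f * e := by rw [hef]
  have h5 : (f * e) * (f * e) = f * e := by
    rw [mul_assoc, ← mul_assoc e f e, hef, ← mul_assoc, hff]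
  have h6 : f * e = e := by
    have := h3 e f hee
    rw [h4, pq_idem (f * e) h5] at this
    exact this
  have h7 : f * k = k := by
    rw [← hk, ← mul_assoc, h6]
  obtain ⟨u, hu⟩ := pq_fac k k' m
  obtain ⟨v, hv⟩ := pq_fac k' k m
  refine ⟨u, v, ?_, ?_⟩
  · rw [← hu]; exact h.symm
  · rw [← hv]; exact h7.symm

lemma R_refl {k : S} (hk : pq k m * k = k) : R k k := by
  refine ⟨pq k m, pq k m, ?_, ?_⟩ <;> rw [← pq_comm, hk]

lemma R_right (h3 : ∀ e y : S, e * e = e → pq (e * y * e) m = e)
    (h1 : ∀ x : S, pq x m * pq x m = pq x m) {k : S} (s : S) (hk : pq k m * k = k) :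
    R k (k * s) :=
  R_of m h3 h1 hk (by rw [← mul_assoc, hk])

/-- the relation with the elements of `U4` -/
def rho (x y : S) (s : S) : U4 → Prop
  | .x => s = x
  | .p => pq s m * s = s ∧ R s (x * x)
  | .m => pq s m * s = s ∧ R s y
  | .q => pq s m * s = s ∧ R s (x * y)

theorem first (E : Set (T × T)) (h0 : Sa E (fun a b : S => a * b))
    (h1 : ∀ x : S, pq x m * pq x m = pq x m)
    (h2 : ∀ x y : S, pq (x * y) m * (x * y) = x * y)
    (h3 : ∀ e y : S, e * e = e → pq (e * y * e) m = e)
    (x y0 : S) (hxy0 : pq x m * (x * y0) ≠ x * y0) : Sa E u4 := by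
  -- wlog `y ∈ K`
  obtain ⟨y, hy, hxy⟩ : ∃ y : S, pq y m * y = y ∧ pq x m * (x * y) ≠ x * y := by
    refine ⟨y0 * pq (x * y0) m, h2 _ _, ?_⟩
    have h4 : x * (y0 * pq (x * y0) m) = x * y0 := by
      rw [← mul_assoc, ← pq_comm, h2]
    rw [h4]
    exact hxy0
  have hxx : pq x m * (x * x) = x * x := by
    have h4 : pq (x * x) m = pq x m := by rw [pq_sq, h1]
    rw [← h4]
    exact h2 x x
  -- the impossible relation
  have hno : ¬ R (x * x) (x * y) := by
    rintro ⟨u, _, hu, _⟩
    apply hxy
    rw [hu, ← mul_assoc, hxx]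
  have hxxs : ∀ s, R (x * x) (x * x * s) := fun s => R_right m h3 h1 s (h2 x x)
  have hpq : ∀ s, R s (x * x) → R s (x * y) → False := fun s ha hb =>
    hno (R_trans (R_symm ha) hb)
  have hmp : ∀ s, R s y → R s (x * x) → False := by
    intro s ha hb
    have h4 : R (x * y) (x * (x * x)) := R_mul x (R_trans (R_symm ha) hb)
    rw [← mul_assoc] at h4
    exact hno (R_trans (hxxs x) (R_symm h4))
  have hmq : ∀ s, R s y → R s (x * y) → False := by
    intro s ha hb
    have h4 : R (x * y) (x * (x * y)) := R_mul x (R_trans (R_symm ha) hb)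
    rw [← mul_assoc] at h4
    exact hno (R_trans (hxxs y) (R_symm h4))
  have hxK : ¬ pq x m * x = x := by
    intro h
    apply hxy
    rw [← mul_assoc, h]
  refine sa_of_rel h0 (rho m x y) ?_ ?_ ?_
  · intro a b a' b' ha hb
    have hK := h2 a b
    cases a' with
    | x =>
      simp only [rho] at ha
      subst ha
      cases b' with
      | x =>
        simp only [rho] at hb
        subst hb
        exact ⟨hK, R_refl m hK⟩
      | p =>
        refine ⟨hK, ?_⟩
        have h4 := R_mul a hb.2
        rw [← mul_assoc a a a] at h4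
        exact R_trans h4 (R_symm (hxxs a))
      | m =>
        exact ⟨hK, R_mul a hb.2⟩
      | q =>
        refine ⟨hK, ?_⟩
        have h4 := R_mul a hb.2
        rw [← mul_assoc a a y] at h4
        exact R_trans h4 (R_symm (hxxs y))
    | p => exact ⟨hK, R_trans (R_symm (R_right m h3 h1 b ha.1)) ha.2⟩
    | m => exact ⟨hK, R_trans (R_symm (R_right m h3 h1 b ha.1)) ha.2⟩
    | q => exact ⟨hK, R_trans (R_symm (R_right m h3 h1 b ha.1)) ha.2⟩
  · intro a a' a'' ha hb
    cases a' <;> cases a'' <;> first
      | rfl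
      | (exfalso; simp only [rho] at ha; subst ha; exact hxK hb.1)
      | (exfalso; simp only [rho] at hb; subst hb; exact hxK ha.1)
      | (exfalso; exact hpq _ ha.2 hb.2)
      | (exfalso; exact hpq _ hb.2 ha.2)
      | (exfalso; exact hmp _ ha.2 hb.2)
      | (exfalso; exact hmp _ hb.2 ha.2)
      | (exfalso; exact hmq _ ha.2 hb.2)
      | (exfalso; exact hmq _ hb.2 ha.2)
  · intro a'
    cases a' with
    | x => exact ⟨x, rfl⟩
    | p => exact ⟨x * x, h2 _ _, R_refl m (h2 _ _)⟩
    | m => exact ⟨y, hy, R_refl m hy⟩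
    | q => exact ⟨x * y, h2 _ _, R_refl m (h2 _ _)⟩

end First

/-- the mirror image of a term -/
def mir : T → T
  | .var n => .var n
  | .mul s t => .mul (mir t) (mir s)

lemma mir_mir (t : T) : mir (mir t) = t := by
  induction t with
  | var n => rfl
  | mul s t ihs iht => simp only [mir, ihs, iht]

lemma mir_val {M : Type} (o : M → M → M) (v : ℕ → M) (t : T) :
    (mir t).val (fun a b => o b a) v = t.val o v := by
  induction t with
  | var n => rfl
  | mul s t ihs iht => simp only [mir, T.val, ihs, iht]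

lemma first_o (E : Set (T × T)) (m : ℕ) (M : Type) (o : M → M → M) (hs : SG o) (hE : Sa E o)
    (hK : Kern m o) (x y : M) (h : o (pw o x m) (o x y) ≠ o x y) : Sa E u4 := by
  letI : Semigroup M := { mul := o, mul_assoc := hs }
  have hp : ∀ (z : M) (n : ℕ), pw o z n = pq z n := by
    intro z n
    induction n with
    | zero => rfl
    | succ n ih => simp only [pw, pq, ih]; rfl
  obtain ⟨h1, h2, h3⟩ := hK
  simp only [hp] at h1 h2 h3 h
  exact first m E hE h1 h2 h3 x y h

lemma pw_comm {M : Type} (o : M → M → M) (hs : SG o) (x : M) (n : ℕ) :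
    o (pw o x n) x = o x (pw o x n) := by
  induction n with
  | zero => rfl
  | succ n ih =>
    simp only [pw]
    rw [ih, hs, ih]

lemma pw_op {M : Type} (o : M → M → M) (hs : SG o) (x : M) (n : ℕ) :
    pw (fun a b => o b a) x n = pw o x n := by
  induction n with
  | zero => rfl
  | succ n ih =>
    simp only [pw]
    rw [ih, pw_comm o hs]

/-- leaf F -/
theorem leaf_F : Light.Leaf_F := by
  intro E m M o hs hE hK
  refine ⟨?_, ?_⟩
  · rintro ⟨x, y, h⟩
    exact first_o E m M o hs hE hK x y h
  · rintro ⟨x, y, h⟩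
    have hs' : SG (fun a b => o b a) := fun a b c => (hs c b a).symm
    have hE' : Sa ((fun p : T × T => (mir p.1, mir p.2)) '' E) (fun a b => o b a) := by
      rintro _ ⟨p, hp, rfl⟩ v
      simp only [mir_val]
      exact hE p hp v
    have hK' : Kern m (fun a b => o b a) := by
      obtain ⟨h1, h2, h3⟩ := hK
      refine ⟨?_, ?_, ?_⟩
      · intro a
        simp only [pw_op o hs]
        exact h1 a
      · intro a b
        simp only [pw_op o hs]
        rw [← pw_comm o hs]
        exact h2 b a
      · intro e a he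
        simp only [pw_op o hs]
        rw [← hs]
        exact h3 e a he
    have h' : (fun a b => o b a) (pw (fun a b => o b a) y m) ((fun a b => o b a) y x) ≠
        (fun a b => o b a) y x := by
      simp only [pw_op o hs]
      exact h
    have h4 := first_o _ m M (fun a b => o b a) hs' hE' hK' y x h'
    intro p hp v
    have h5 := h4 _ ⟨p, hp, rfl⟩ v
    have h6 : ∀ t : T, (mir t).val u4 v = t.val (fun a b => u4 b a) v := by
      intro t
      exact mir_val (fun a b => u4 b a) v t
    simp only [h6] at h5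
    exact h5

end Pool.Agent.N649.SG.F
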