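import Pool.Agent.N649.SG.Light

set_option autoImplicit false

/-!
# Semigroup identities, leaf G (helper650): inflations of unions of groups
-/

namespace Pool.Agent.N649.SG.G

open Light

/-- transfer of the identities along a relation -/
theorem Sa_of_rel {E : Set (T × T)} {M M' : Type} {o : M → M → M} {o' : M' → M' → M'} (h : Sa E o)
    (ρ : M → M' → Prop) (hc : ∀ a a' b b', ρ a a' → ρ b b' → ρ (o a b) (o' a' b'))
    (hf : ∀ a a' a'', ρ a a' → ρ a a'' → a' = a'') (ho : ∀ a', ∃ a, ρ a a') : Sa E o' := by
  intro p hp v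
  choose g hg using ho
  have key : ∀ t : T, ρ (t.val o (fun n => g (v n))) (t.val o' v) := by
    intro t
    induction t with
    | var n => exact hg (v n)
    | mul s t hs ht => exact hc _ _ _ _ hs ht
  have h1 := h p hp (fun n => g (v n))
  have h2 := key p.1
  rw [h1] at h2
  exact hf _ _ _ h2 (key p.2)

variable {M : Type} {o : M → M → M}

theorem pw_add (hs : SG o) (x : M) (i j : ℕ) : o (pw o x i) (pw o x j) = pw o x (i + j + 1) := by
  induction j with
  | zero => rfl
  | succ j ih =>
    show o (pw o x i) (o (pw o x j) x) = o (pw o x (i + j + 1)) x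
    rw [← hs, ih]

theorem pw_comm (hs : SG o) (x : M) (j : ℕ) : o x (pw o x j) = pw o x (j + 1) := by
  have h := pw_add hs x 0 j
  rw [Nat.zero_add] at h
  exact h

/-- the last two parts -/
theorem band (hs : SG o) {m : ℕ} (hk : Kern m o)
    (h1 : ∀ x y : M, o (pw o x m) (o x y) = o x y) (h2 : ∀ x y : M, o (o x y) (pw o y m) = o x y)
    (h3 : ∀ x : M, pw o x (m + 1) = pw o x m) :
    (∀ x y : M, o x y = o (pw o x m) (pw o y m)) ∧ (∀ x y : M, o (o x y) (o x y) = o x y) ∧
    ∀ x y _z : M, o (pw o x m) (o (pw o y m) (pw o x m)) = pw o x m := by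
  obtain ⟨k1, k2, k3⟩ := hk
  have e1 : ∀ x y : M, o x y = o (pw o x m) y := by
    intro x y
    have h4 : o (pw o x m) x = pw o x m := h3 x
    rw [← h1 x y, ← hs, h4]
  have e2 : ∀ x y : M, o x y = o x (pw o y m) := by
    intro x y
    rw [← h2 x y, hs, pw_comm hs, h3]
  have e3 : ∀ x y : M, pw o (o x y) m = o x y := by
    intro x y
    have h4 : o (pw o (o x y) m) (o x y) = pw o (o x y) m := h3 (o x y)
    rw [← h4]
    exact k2 x y
  refine ⟨fun x y => by rw [e1 x y, e2 (pw o x m) y], ?_, ?_⟩
  · intro x y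
    have h4 := k1 (o x y)
    rw [e3] at h4
    exact h4
  · intro x y _
    have h4 := k3 (pw o x m) (pw o y m) (k1 x)
    rw [e3] at h4
    rw [← hs]
    exact h4

theorem leaf_G : Leaf_G := by
  intro E m M o hs hE hk h1 h2
  refine ⟨?_, ?_, ?_, ?_⟩
  · -- null semigroups
    rintro ⟨x, hx⟩
    obtain ⟨-, k2, -⟩ := hk
    refine Sa_of_rel hE (fun s b => (b = false → o (pw o s m) s = s) ∧ (b = true → s = x)) ?_ ?_ ?_
    · intro a a' b b' _ _
      exact ⟨fun _ => k2 a b, fun h => by simp at h⟩
    · intro a a' a'' ha ha'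
      cases a' <;> cases a''
      · rfl
      · exfalso
        have e1 := ha.1 rfl
        have e2 := ha'.2 rfl
        rw [e2] at e1
        exact hx e1
      · exfalso
        have e1 := ha'.1 rfl
        have e2 := ha.2 rfl
        rw [e2] at e1
        exact hx e1
      · rfl
    · intro a'
      cases a'
      · exact ⟨o x x, fun _ => k2 x x, fun h => by simp at h⟩
      · exact ⟨x, fun h => by simp at h, fun _ => rfl⟩
  · -- cyclic groups
    rintro ⟨x, hx⟩
    obtain ⟨k1, -, -⟩ := hk
    obtain ⟨G, hG⟩ : ∃ G : ℕ → M, G = fun k => pw o x (m + k) := ⟨_, rfl⟩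
    have hG0 : G 0 = pw o x m := by rw [hG]; rfl
    have hG1 : G 1 ≠ G 0 := by rw [hG]; exact hx
    have hper : ∀ j, pw o x (m + m + 1 + j) = pw o x (m + j) := by
      intro j
      cases j with
      | zero =>
        rw [Nat.add_zero, Nat.add_zero, ← pw_add hs x m m]
        exact k1 x
      | succ j =>
        have e1 : pw o x (m + m + 1 + (j + 1)) = o (o (pw o x m) (pw o x m)) (pw o x j) := by
          rw [pw_add hs, pw_add hs]
          congr 1
        have e2 : pw o x (m + (j + 1)) = o (pw o x m) (pw o x j) := by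
          rw [pw_add hs]
          congr 1
        rw [e1, e2, k1 x]
    have hmul : ∀ k l, o (G k) (G l) = G (k + l) := by
      intro k l
      rw [hG]
      show o (pw o x (m + k)) (pw o x (m + l)) = pw o x (m + (k + l))
      rw [pw_add hs, ← hper (k + l)]
      congr 1
      omega
    have hadd : ∀ k q, G (k + q * (m + 1)) = G k := by
      intro k q
      induction q with
      | zero => simp
      | succ q ih =>
        rw [← ih, hG]
        show pw o x (m + (k + (q + 1) * (m + 1))) = pw o x (m + (k + q * (m + 1)))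
        rw [← hper (k + q * (m + 1))]
        congr 1
        ring
    have hex : ∃ n, 0 < n ∧ G n = G 0 := ⟨m + 1, by omega, by
      have := hadd 0 1
      simpa using this⟩
    classical
    obtain ⟨n, hn⟩ : ∃ n, n = Nat.find hex := ⟨_, rfl⟩
    have hn0 : 0 < n := by rw [hn]; exact (Nat.find_spec hex).1
    have hnG : G n = G 0 := by rw [hn]; exact (Nat.find_spec hex).2
    have hnmin : ∀ k, k < n → 0 < k → G k ≠ G 0 := by
      intro k hk hk0 h
      rw [hn] at hk
      exact Nat.find_min hex hk ⟨hk0, h⟩
    have hn1 : n ≠ 1 := by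
      intro h
      rw [h] at hnG
      exact hG1 hnG
    have hzero : ∀ k, o (G 0) (G k) = G k := fun k => by rw [hmul, Nat.zero_add]
    have hqn : ∀ q k, G (q * n + k) = G k := by
      intro q
      induction q with
      | zero => intro k; simp
      | succ q ih =>
        intro k
        rw [show (q + 1) * n + k = q * n + (n + k) by ring, ih, ← hmul, hnG, hzero]
    have hdvd : ∀ k, G k = G 0 → n ∣ k := by
      intro k hk
      have e1 : k = k / n * n + k % n := by
        rw [mul_comm]; exact (Nat.div_add_mod k n).symm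
      have e2 : G (k % n) = G 0 := by
        rw [← hk]
        conv_rhs => rw [e1]
        rw [hqn]
      by_contra hcon
      have e3 : 0 < k % n := Nat.pos_of_ne_zero fun h => hcon (Nat.dvd_of_mod_eq_zero h)
      exact hnmin _ (Nat.mod_lt _ hn0) e3 e2
    obtain ⟨p, hp, hpn⟩ := Nat.exists_prime_and_dvd hn1
    have : NeZero p := ⟨hp.ne_zero⟩
    refine ⟨p, hp, Sa_of_rel hE (fun s a => ∃ k : ℕ, s = G k ∧ (k : ZMod p) = a) ?_ ?_ ?_⟩
    · rintro a a' b b' ⟨k, rfl, rfl⟩ ⟨l, rfl, rfl⟩
      exact ⟨k + l, hmul k l, by push_cast; rfl⟩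
    · rintro a a' a'' ⟨k, hk1, rfl⟩ ⟨l, hl1, rfl⟩
      have hkl : G k = G l := hk1.symm.trans hl1
      have e1 : G (l + l * m) = G 0 := by
        have := hadd 0 l
        rw [Nat.zero_add] at this
        rw [← this]
        congr 1
        ring
      have e2 : G (k + l * m) = G 0 := by rw [← hmul, hkl, hmul, e1]
      have e3 : ((k + l * m : ℕ) : ZMod p) = 0 :=
        (ZMod.natCast_eq_zero_iff _ _).2 (hpn.trans (hdvd _ e2))
      have e4 : ((l + l * m : ℕ) : ZMod p) = 0 :=
        (ZMod.natCast_eq_zero_iff _ _).2 (hpn.trans (hdvd _ e1))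
      rw [Nat.cast_add] at e3 e4
      exact add_right_cancel (e3.trans e4.symm)
    · intro a
      exact ⟨G a.val, a.val, rfl, ZMod.natCast_zmod_val a⟩
  · -- left zero semigroups
    intro h3 hRU
    obtain ⟨b1, b2, b3⟩ := band hs hk h1 h2 h3
    unfold RU at hRU
    push Not at hRU
    obtain ⟨x, y, z, hne⟩ := hRU
    have key : ∀ u v : M, o (o u x) (o v x) = o u x := by
      intro u v
      rw [b1 u x, b1 v x, hs, b3 x v x]
    refine Sa_of_rel hE (fun s c => s = if c = true then o y x else o z x) ?_ ?_ ?_
    · rintro a a' b b' rfl rfl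
      cases a' <;> cases b' <;> simp [key]
    · rintro a a' a'' h h'
      rw [h] at h'
      cases a' <;> cases a''
      · rfl
      · simp at h'
        exact absurd h'.symm hne
      · simp at h'
        exact absurd h' hne
      · rfl
    · intro a'
      exact ⟨_, rfl⟩
  · -- right zero semigroups
    intro h3 hLU
    obtain ⟨b1, b2, b3⟩ := band hs hk h1 h2 h3
    unfold LU at hLU
    push Not at hLU
    obtain ⟨x, y, z, hne⟩ := hLU
    have key : ∀ u v : M, o (o x u) (o x v) = o x v := by
      intro u v
      rw [b1 x u, b1 x v, ← hs, hs (pw o x m), b3 x u x]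
    refine Sa_of_rel hE (fun s c => s = if c = true then o x y else o x z) ?_ ?_ ?_
    · rintro a a' b b' rfl rfl
      cases a' <;> cases b' <;> simp [key]
    · rintro a a' a'' h h'
      rw [h] at h'
      cases a' <;> cases a''
      · rfl
      · simp at h'
        exact absurd h'.symm hne
      · simp at h'
        exact absurd h' hne
      · rfl
    · intro a'
      exact ⟨_, rfl⟩

end Pool.Agent.N649.SG.G
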