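import Pool.Agent.N649.SG.Light

/-!
# Completely simple semigroups which are not rectangular groups (leaf H, helper575)
-/

set_option autoImplicit false

namespace Pool.Agent.N649.SG.H

open Pool.Agent.N649.SG.Light

/-- identities pass to quotients of subsemigroups -/
theorem Sa_of_rel {E : Set (T × T)} {M M' : Type} {o : M → M → M} {o' : M' → M' → M'}
    (hE : Sa E o) (ρ : M → M' → Prop)
    (hc : ∀ a b a' b', ρ a a' → ρ b b' → ρ (o a b) (o' a' b'))
    (hf : ∀ a a' a'', ρ a a' → ρ a a'' → a' = a'') (hs : ∀ a', ∃ a, ρ a a') : Sa E o' := by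
  intro p hp v'
  choose g hg using hs
  have key : ∀ t : T, ρ (t.val o fun n => g (v' n)) (t.val o' v') := by
    intro t
    induction t with
    | var n => exact hg _
    | mul s t hs ht => exact hc _ _ _ _ hs ht
  have h1 := key p.1
  have h2 := key p.2
  rw [hE p hp] at h1
  exact hf _ _ _ h1 h2

theorem core {S : Type} [Semigroup S] {e f h : S} {m : ℕ} (he : e * e = e) (hff : f * f = f)
    (h1 : e * h = h) (h3 : e * f * e * h = e)
    (h4 : h * (e * f * e) = e) (hne : e * f * e ≠ e) (H : ℕ → S) (H0 : H 0 = e)
    (Hs : ∀ j, H (j + 1) = h * H j) (Hm : H (m + 1) = e) :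
    ∃ p : ℕ, p.Prime ∧ ∃ ρ : S → Bool × ZMod p × Bool → Prop,
      (∀ a b a' b', ρ a a' → ρ b b' → ρ (a * b) (rm p (P2 p) a' b')) ∧
      (∀ a a' a'', ρ a a' → ρ a a'' → a' = a'') ∧ (∀ a', ∃ a, ρ a a') := by
  classical
  have eH : ∀ j, e * H j = H j := by
    intro j
    cases j with
    | zero => rw [H0, he]
    | succ j => rw [Hs, ← mul_assoc, h1]
  have Ha : ∀ i j, H (i + j) = H i * H j := by
    intro i j
    induction i with
    | zero => rw [Nat.zero_add, H0, eH]
    | succ i ih =>
      rw [show i + 1 + j = (i + j) + 1 by omega, Hs, Hs, ih, mul_assoc]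
  have He : ∀ j, H j * e = H j := by
    intro j
    have := Ha j 0
    rw [H0] at this
    exact this.symm
  have H1 : H 1 = h := by
    have := Hs 0
    rw [H0] at this
    have h5 := He 1
    have h6 : h * e = h := by
      calc h * e = h * (e * f * e * h) := by rw [h3]
        _ = h * (e * f * e) * h := by simp only [mul_assoc]
        _ = h := by rw [h4, h1]
    rw [this, h6]
  have Hk : ∀ k, H ((m + 1) * k) = e := by
    intro k
    induction k with
    | zero => exact H0
    | succ k ih => rw [Nat.mul_succ, Ha, ih, Hm, he]
  have Hinv : ∀ j, H j * H (m * j) = e := by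
    intro j
    rw [← Ha, show j + m * j = (m + 1) * j by ring, Hk]
  have Hinv' : ∀ j, H (m * j) * H j = e := by
    intro j
    rw [← Ha, show m * j + j = (m + 1) * j by ring, Hk]
  -- the order
  have hex : ∃ n, 0 < n ∧ H n = e := ⟨m + 1, Nat.succ_pos m, Hm⟩
  obtain ⟨n, hn⟩ : ∃ n, n = Nat.find hex := ⟨_, rfl⟩
  have hn1 : 0 < n ∧ H n = e := by rw [hn]; exact Nat.find_spec hex
  have hn2 : ∀ k, 0 < k → k < n → H k ≠ e := by
    intro k hk hkn hH
    rw [hn] at hkn
    exact Nat.find_min hex hkn ⟨hk, hH⟩
  have hne1 : n ≠ 1 := by
    intro h5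
    have h6 := hn1.2
    rw [h5, H1] at h6
    apply hne
    rw [h6, mul_assoc (e * f) e e, he] at h3
    exact h3
  have hnk : ∀ k, H (n * k) = e := by
    intro k
    induction k with
    | zero => exact H0
    | succ k ih => rw [Nat.mul_succ, Ha, ih, hn1.2, he]
  have hdvd : ∀ d, H d = e → n ∣ d := by
    intro d hd
    have h5 : H (d % n) = e := by
      have h6 : H d = H (n * (d / n)) * H (d % n) := by rw [← Ha, Nat.div_add_mod]
      rw [hnk, eH] at h6
      rw [← h6, hd]
    by_contra hnd
    have h7 : 0 < d % n := Nat.pos_of_ne_zero fun h8 => hnd (Nat.dvd_of_mod_eq_zero h8)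
    exact hn2 _ h7 (Nat.mod_lt _ hn1.1) h5
  obtain ⟨p, hp⟩ : ∃ p, p = n.minFac := ⟨_, rfl⟩
  have hpp : p.Prime := by rw [hp]; exact Nat.minFac_prime hne1
  have hpn : p ∣ n := by rw [hp]; exact Nat.minFac_dvd n
  have : NeZero p := ⟨hpp.ne_zero⟩
  have hle : ∀ i j, i ≤ j → H i = H j → (i : ZMod p) = (j : ZMod p) := by
    intro i j hij hH
    have h5 : H (j - i) = e := by
      calc H (j - i) = H (j - i) * e := (He _).symm
        _ = H (j - i) * (H i * H (m * i)) := by rw [Hinv]
        _ = H j * H (m * i) := by rw [← mul_assoc, ← Ha, Nat.sub_add_cancel hij]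
        _ = e := by rw [← hH, Hinv]
    have h6 := hpn.trans (hdvd _ h5)
    have h7 := (ZMod.natCast_eq_zero_iff (j - i) p).2 h6
    rw [Nat.cast_sub hij] at h7
    exact (sub_eq_zero.1 h7).symm
  have hmod : ∀ i j, H i = H j → (i : ZMod p) = (j : ZMod p) := by
    intro i j hH
    rcases le_total i j with hij | hij
    · exact hle i j hij hH
    · exact (hle j i hij hH.symm).symm
  -- the matrix
  obtain ⟨r, hr⟩ : ∃ r : Bool → S, r = fun b => if b then f * e * h else e := ⟨_, rfl⟩
  obtain ⟨q, hq⟩ : ∃ q : Bool → S, q = fun b => if b then h * e * f else e := ⟨_, rfl⟩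
  have rf : r false = e := by rw [hr]; simp
  have rt : r true = f * e * h := by rw [hr]; simp
  have qf : q false = e := by rw [hq]; simp
  have qt : q true = h * e * f := by rw [hq]; simp
  have he1 : h * e = h := by rw [← H1]; exact He 1
  have q0r : ∀ i, e * r i = e := by
    intro i
    cases i with
    | false => rw [rf, he]
    | true =>
      rw [rt]
      simpa only [mul_assoc] using h3
  have r0q : ∀ k, q k * e = e := by
    intro k
    cases k with
    | false => rw [qf, he]
    | true =>
      rw [qt]
      have : h * (e * f * e) = h * e * f * e := by simp only [mul_assoc]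
      rw [← this, h4]
  have qr : ∀ k i, q k * r i = H (if k = true ∧ i = true then 1 else 0) := by
    intro k i
    cases k with
    | false =>
      rw [qf, q0r]
      simp [H0]
    | true =>
      cases i with
      | false =>
        rw [rf, r0q]
        simp [H0]
      | true =>
        simp only [and_self, if_true]
        rw [qt, rt, H1]
        calc h * e * f * (f * e * h) = h * (e * ((f * f) * e)) * h := by simp only [mul_assoc]
          _ = h * (e * f * e) * h := by rw [hff, mul_assoc e f e]
          _ = h := by rw [h4, h1]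
  have er : ∀ i, r i * e = r i := by
    intro i
    cases i with
    | false => rw [rf, he]
    | true => rw [rt, mul_assoc, he1]
  have eq' : ∀ k, e * q k = q k := by
    intro k
    cases k with
    | false => rw [qf, he]
    | true => rw [qt, ← mul_assoc, ← mul_assoc, h1]
  refine ⟨p, hpp, fun s x => ∃ j : ℕ, s = r x.1 * H j * q x.2.2 ∧ (j : ZMod p) = x.2.1, ?_, ?_, ?_⟩
  · rintro a b ⟨i, x, k⟩ ⟨i', x', k'⟩ ⟨j, hj, hx⟩ ⟨j', hj', hx'⟩
    simp only at hj hx hj' hx'
    obtain ⟨c, hc⟩ : ∃ c : ℕ, c = if k = true ∧ i' = true then 1 else 0 := ⟨_, rfl⟩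
    refine ⟨j + c + j', ?_, ?_⟩
    · show a * b = r i * H (j + c + j') * q k'
      rw [hj, hj']
      calc r i * H j * q k * (r i' * H j' * q k') = r i * (H j * (q k * r i') * H j') * q k' := by
            simp only [mul_assoc]
        _ = _ := by rw [qr, ← hc, ← Ha, ← Ha]
    · show ((j + c + j' : ℕ) : ZMod p) = x + P2 p k i' + x'
      rw [Nat.cast_add, Nat.cast_add, hx, hx', hc]
      unfold P2
      split_ifs
      · simp
      · simp
  · rintro s ⟨i, x, k⟩ ⟨i', x', k'⟩ ⟨j, hj, hx⟩ ⟨j', hj', hx'⟩
    simp only at hj hx hj' hx'
    -- the first coordinate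
    have left : ∀ (j j' : ℕ) (k k' : Bool), s = r false * H j * q k → s = r true * H j' * q k' →
        False := by
      intro j j' k k' hs hs'
      have e1 : f * s = s := by
        rw [hs', rt]
        calc f * (f * e * h * H j' * q k') = (f * f) * e * h * H j' * q k' := by
              simp only [mul_assoc]
          _ = _ := by rw [hff]
      have e2 : s * (e * H (m * j)) = e := by
        rw [hs, rf]
        calc e * H j * q k * (e * H (m * j)) = e * H j * (q k * e) * H (m * j) := by
              simp only [mul_assoc]
          _ = e := by rw [r0q, eH, He, Hinv]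
      have e3 : f * e = e := by
        calc f * e = f * (s * (e * H (m * j))) := by rw [e2]
          _ = (f * s) * (e * H (m * j)) := by rw [mul_assoc]
          _ = e := by rw [e1, e2]
      exact hne (by rw [mul_assoc, e3, he])
    have right : ∀ (j j' : ℕ) (i i' : Bool), s = r i * H j * q false → s = r i' * H j' * q true →
        False := by
      intro j j' i i' hs hs'
      have e1 : s * f = s := by
        rw [hs', qt]
        calc r i' * H j' * (h * e * f) * f = r i' * H j' * (h * e * (f * f)) := by
              simp only [mul_assoc]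
          _ = _ := by rw [hff]
      have e2 : H (m * j) * e * s = e := by
        rw [hs, qf]
        calc H (m * j) * e * (r i * H j * e) = H (m * j) * (e * r i) * (H j * e) := by
              simp only [mul_assoc]
          _ = e := by rw [q0r, He, He, Hinv']
      have e3 : e * f = e := by
        calc e * f = H (m * j) * e * s * f := by rw [e2]
          _ = H (m * j) * e * (s * f) := by rw [mul_assoc]
          _ = e := by rw [e1, e2]
      exact hne (by rw [e3, he])
    have hi : i = i' := by
      cases i with
      | false =>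
        cases i' with
        | false => rfl
        | true => exact (left j j' k k' hj hj').elim
      | true =>
        cases i' with
        | false => exact (left j' j k' k hj' hj).elim
        | true => rfl
    have hk : k = k' := by
      cases k with
      | false =>
        cases k' with
        | false => rfl
        | true => exact (right j j' i i' hj hj').elim
      | true =>
        cases k' with
        | false => exact (right j' j i' i hj' hj).elim
        | true => rfl
    have hval : ∀ (j : ℕ) (i k : Bool), s = r i * H j * q k → e * s * e = H j := by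
      intro j i k hs
      rw [hs]
      calc e * (r i * H j * q k) * e = (e * r i) * H j * (q k * e) := by
            simp only [mul_assoc]
        _ = H j := by rw [q0r, r0q, eH, He]
    have hH : H j = H j' := by rw [← hval j i k hj, ← hval j' i' k' hj']
    have hxx : x = x' := by rw [← hx, ← hx']; exact hmod j j' hH
    rw [hi, hk, hxx]
  · rintro ⟨i, x, k⟩
    exact ⟨r i * H x.val * q k, x.val, rfl, ZMod.natCast_zmod_val x⟩

theorem leaf_H : Leaf_H := by
  intro E m M o hS hE hK hW hR
  obtain ⟨-, -, K3⟩ := hK
  let inst : Semigroup M := { mul := o, mul_assoc := hS }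
  have hmul : ∀ a b : M, o a b = a * b := fun _ _ => rfl
  -- regular
  have hreg : ∀ a : M, ∃ x, o (o a x) a = a := by
    intro a
    cases m with
    | zero =>
      refine ⟨a, ?_⟩
      have h1 : o a a = a := hW a
      rw [h1, h1]
    | succ m =>
      refine ⟨pw o a m, ?_⟩
      have h2 : ∀ k, o a (pw o a k) = pw o a (k + 1) := by
        intro k
        induction k with
        | zero => rfl
        | succ k ih =>
          show o a (o (pw o a k) a) = o (pw o a (k + 1)) a
          rw [← hS, ih]
      rw [h2]
      exact hW a
  have hex : ∃ e f : M, o e e = e ∧ o f f = f ∧ o (o e f) e ≠ e := by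
    by_contra hcon
    push Not at hcon
    exact hR ⟨hS, hreg, fun e f he hf => hcon e f he hf⟩
  obtain ⟨e, f, he, hf, hne⟩ := hex
  obtain ⟨g, hg⟩ : ∃ g, g = o (o e f) e := ⟨_, rfl⟩
  have hgm : pw o g m = e := by rw [hg]; exact K3 e f he
  have heg : o e g = g := by
    rw [hg, ← hS, ← hS, he]
  have hge : o g e = g := by
    rw [hg, hS (o e f) e e, he]
  cases m with
  | zero =>
    exact absurd (by rw [← hg]; exact hgm) hne
  | succ m =>
    obtain ⟨h, hh⟩ : ∃ h, h = pw o g m := ⟨_, rfl⟩
    have hcomm : ∀ k, o g (pw o g k) = pw o g (k + 1) := by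
      intro k
      induction k with
      | zero => rfl
      | succ k ih =>
        show o g (o (pw o g k) g) = o (pw o g (k + 1)) g
        rw [← hS, ih]
    have hgh : o g h = e := by rw [hh, hcomm]; exact hgm
    have hhg : o h g = e := by rw [hh]; exact hgm
    have heh : o e h = h := by
      rw [hh]
      cases m with
      | zero => exact heg
      | succ m =>
        rw [← hcomm, ← hS, heg]
    have hhe : o h e = h := by
      rw [hh]
      cases m with
      | zero => exact hge
      | succ m =>
        show o (o (pw o g m) g) e = o (pw o g m) g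
        rw [hS, hge]
    obtain ⟨H, hH⟩ : ∃ H : ℕ → M, H = fun j => Nat.rec e (fun _ x => o h x) j := ⟨_, rfl⟩
    have H0 : H 0 = e := by rw [hH]; rfl
    have Hs : ∀ j, H (j + 1) = o h (H j) := by intro j; rw [hH]
    have Hp : ∀ j, H (j + 1) = pw o h j := by
      intro j
      induction j with
      | zero => rw [Hs, H0]; exact hhe
      | succ j ih =>
        rw [Hs, ih]
        clear ih
        induction j with
        | zero => rfl
        | succ k ih =>
          show o h (o (pw o h k) h) = o (pw o h (k + 1)) h
          rw [← hS, ih]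
    have Hm : H (m + 1 + 1) = e := by
      rw [Hp]
      have := K3 e h he
      rw [heh, hhe] at this
      exact this
    obtain ⟨p, hp, ρ, h1, h2, h3⟩ := core (S := M) (e := e) (f := f) (h := h) (m := m + 1) he hf
      heh (by
        show o (o (o e f) e) h = e
        rw [← hg]; exact hgh) (by
        show o h (o (o e f) e) = e
        rw [← hg]; exact hhg) hne H H0 Hs Hm
    exact ⟨p, hp, Sa_of_rel hE ρ h1 h2 h3⟩

end Pool.Agent.N649.SG.H
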