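import Pool.Agent.N649.SG.D
import Pool.Agent.N649.SG.E
import Pool.Agent.N649.SG.F
import Pool.Agent.N649.SG.G
import Pool.Agent.N649.SG.H

set_option autoImplicit false

/-!
# The classification of the varieties of semigroups
-/

namespace Pool.Agent.N649.SG.Cls

open Pool.Agent.N649.SG.Light

theorem classify (E : Set (T × T)) :
    Sa E or ∨ Sa E t4 ∨ Sa E u4 ∨ (Sa E fun x y => u4 y x) ∨
    (Sa E (fun x _ : Bool => x) ∧ Sa E (fun _ y : Bool => y) ∧ Sa E (fun _ _ : Bool => false)) ∨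
    (∃ p : ℕ, p.Prime ∧ Sa E (fun x y : ZMod p => x + y) ∧ Sa E (fun _ _ : Bool => false)) ∨
    (∃ p : ℕ, p.Prime ∧ Sa E (rm p (P2 p))) ∨
    (∀ (M : Type) (o : M → M → M), SG o → Sa E o → LU o) ∨
    (∀ (M : Type) (o : M → M → M), SG o → Sa E o → RU o) ∨
    (∀ (M : Type) (o : M → M → M), SG o → Sa E o → RectGp o) := by
  by_cases h1 : Sa E or
  · exact Or.inl h1
  right
  by_cases h2 : Sa E t4
  · exact Or.inl h2
  right
  by_cases h3 : Sa E u4
  · exact Or.inl h3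
  right
  by_cases h4 : Sa E fun x y => u4 y x
  · exact Or.inl h4
  right
  obtain ⟨m, hm⟩ := Pool.Agent.N649.SG.E.leaf_E E h1 h2
  have hl : ∀ (M : Type) (o : M → M → M), SG o → Sa E o →
      ∀ x y : M, o (pw o x m) (o x y) = o x y := by
    intro M o ho hE x y
    by_contra hxy
    exact h3 ((F.leaf_F E m M o ho hE (hm M o ho hE)).1 ⟨x, y, hxy⟩)
  have hr : ∀ (M : Type) (o : M → M → M), SG o → Sa E o →
      ∀ x y : M, o (o x y) (pw o y m) = o x y := by
    intro M o ho hE x y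
    by_contra hxy
    exact h4 ((F.leaf_F E m M o ho hE (hm M o ho hE)).2 ⟨x, y, hxy⟩)
  have hG := fun (M : Type) (o : M → M → M) (ho : SG o) (hE : Sa E o) =>
    G.leaf_G E m M o ho hE (hm M o ho hE) (hl M o ho hE) (hr M o ho hE)
  by_cases h5 : ∀ (M : Type) (o : M → M → M), SG o → Sa E o → ∀ x : M, o (pw o x m) x = x
  · right; right
    by_cases h6 : ∀ (M : Type) (o : M → M → M), SG o → Sa E o → RectGp o
    · exact Or.inr (Or.inr (Or.inr h6))
    · left
      push Not at h6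
      obtain ⟨M, o, ho, hE, hR⟩ := h6
      exact H.leaf_H E m M o ho hE (hm M o ho hE) (h5 M o ho hE) hR
  · push Not at h5
    obtain ⟨M, o, ho, hE, hx⟩ := h5
    have hn : Sa E (fun _ _ : Bool => false) := (hG M o ho hE).1 hx
    by_cases h6 : ∀ (M : Type) (o : M → M → M), SG o → Sa E o →
        ∀ x : M, pw o x (m + 1) = pw o x m
    · by_cases h7 : ∀ (M : Type) (o : M → M → M), SG o → Sa E o → LU o
      · exact Or.inr (Or.inr (Or.inr (Or.inl h7)))
      by_cases h8 : ∀ (M : Type) (o : M → M → M), SG o → Sa E o → RU o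
      · exact Or.inr (Or.inr (Or.inr (Or.inr (Or.inl h8))))
      push Not at h7 h8
      obtain ⟨M1, o1, ho1, hE1, hL⟩ := h7
      obtain ⟨M2, o2, ho2, hE2, hR⟩ := h8
      exact Or.inl ⟨(hG M2 o2 ho2 hE2).2.2.1 (h6 M2 o2 ho2 hE2) hR,
        (hG M1 o1 ho1 hE1).2.2.2 (h6 M1 o1 ho1 hE1) hL, hn⟩
    · push Not at h6
      obtain ⟨M1, o1, ho1, hE1, hx1⟩ := h6
      obtain ⟨p, hp, hs⟩ := (hG M1 o1 ho1 hE1).2.1 hx1
      exact Or.inr (Or.inl ⟨p, hp, hs, hn⟩)

end Pool.Agent.N649.SG.Cls
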