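import Pool.Agent.N649.SG.Light

set_option autoImplicit false

/-!
# Leaves D, A0, B0 (helper434): identities of Rees matrix semigroups, of `U4`, of inflations
-/

namespace Pool.Agent.N649.SG.D

open Pool.Agent.N649.SG.Light

/-- the first letter -/
def fst : T → ℕ
  | .var n => n
  | .mul s _ => fst s

/-- the last letter -/
def lst : T → ℕ
  | .var n => n
  | .mul _ t => lst t

/-! ### Leaf B0 -/

theorem val_left {M : Type} (v : ℕ → M) (t : T) : t.val (fun x _ => x) v = v (fst t) := by
  induction t with
  | var n => rfl
  | mul s t ihs _ => exact ihs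

theorem val_right {M : Type} (v : ℕ → M) (t : T) : t.val (fun _ y => y) v = v (lst t) := by
  induction t with
  | var n => rfl
  | mul s t _ iht => exact iht

theorem b_left {M : Type} (o : M → M → M) (h : ∀ x y z, o (o x y) z = o x z) (v : ℕ → M) (t : T) :
    ∀ z, o (t.val o v) z = o (v (fst t)) z := by
  induction t with
  | var n => intro z; rfl
  | mul s t ihs _ =>
    intro z
    exact (h _ _ _).trans (ihs z)

theorem b_right {M : Type} (o : M → M → M) (h : ∀ x y z, o x (o y z) = o x z) (v : ℕ → M) (t : T) :
    ∀ z, o z (t.val o v) = o z (v (lst t)) := by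
  induction t with
  | var n => intro z; rfl
  | mul s t _ iht =>
    intro z
    exact (h _ _ _).trans (iht z)

theorem fst_eq {E : Set (T × T)} (h : Sa E (fun x _ : Bool => x)) {p : T × T} (hp : p ∈ E) :
    fst p.1 = fst p.2 := by
  have h1 := h p hp fun n => decide (n = fst p.1)
  rw [val_left, val_left] at h1
  simp only [decide_true] at h1
  exact (of_decide_eq_true h1.symm).symm

theorem lst_eq {E : Set (T × T)} (h : Sa E (fun _ y : Bool => y)) {p : T × T} (hp : p ∈ E) :
    lst p.1 = lst p.2 := by
  have h1 := h p hp fun n => decide (n = lst p.1)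
  rw [val_right, val_right] at h1
  simp only [decide_true] at h1
  exact (of_decide_eq_true h1.symm).symm

theorem leaf_B0 : Leaf_B0 := by
  intro E hl hr hn M o h1 h2 p hp v
  have e1 := fst_eq hl hp
  have e2 := lst_eq hr hp
  have e3 := hn p hp fun _ => true
  obtain ⟨s, t⟩ := p
  simp only at e1 e2 e3 ⊢
  have key : ∀ a b : T, (T.mul a b).val o v = o (v (fst a)) (v (lst b)) := by
    intro a b
    show o (a.val o v) (b.val o v) = _
    rw [b_left o h1, b_right o h2]
  cases s with
  | var n =>
    cases t with
    | var m =>
      have : n = m := e1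
      rw [this]
    | mul c d => exact absurd e3 (by simp [T.val])
  | mul a b =>
    cases t with
    | var m => exact absurd e3 (by simp [T.val])
    | mul c d =>
      rw [key, key]
      have e1' : fst a = fst c := e1
      have e2' : lst b = lst d := e2
      rw [e1', e2']

/-! ### Leaf A0 -/

/-- the first two letters of a product -/
def two : T → T → ℕ × ℕ
  | .var n, t => (n, fst t)
  | .mul s s', _ => two s s'

theorem a_right {M : Type} (o : M → M → M) (h : ∀ x y z, o x (o y z) = o x y) (v : ℕ → M) (t : T) :
    ∀ z, o z (t.val o v) = o z (v (fst t)) := by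
  induction t with
  | var n => intro z; rfl
  | mul s t ihs _ =>
    intro z
    exact (h _ _ _).trans (ihs z)

theorem a_val {M : Type} (o : M → M → M) (h1 : ∀ x y z, o (o x y) z = o x y)
    (h2 : ∀ x y z, o x (o y z) = o x y) (v : ℕ → M) (s : T) :
    ∀ t : T, (T.mul s t).val o v = o (v (two s t).1) (v (two s t).2) := by
  induction s with
  | var n =>
    intro t
    exact a_right o h2 v t _
  | mul a b iha _ =>
    intro t
    have h3 : (T.mul (T.mul a b) t).val o v = (T.mul a b).val o v := h1 _ _ _
    rw [h3]
    exact iha b

theorem u4_1 (x y z : U4) : u4 (u4 x y) z = u4 x y := by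
  cases x <;> cases y <;> cases z <;> rfl

theorem u4_2 (x y z : U4) : u4 x (u4 y z) = u4 x y := by
  cases x <;> cases y <;> cases z <;> rfl

theorem leaf_A0 : Leaf_A0 := by
  intro E hE M o h1 h2 p hp v
  have h := hE p hp
  obtain ⟨s, t⟩ := p
  simp only at h ⊢
  cases s with
  | var n =>
    cases t with
    | var m =>
      have : n = m := by
        by_contra hne
        have h3 := h fun k => if k = n then U4.p else U4.m
        simp only [T.val, if_true] at h3
        rw [if_neg (fun e => hne e.symm)] at h3
        exact absurd h3 (by simp)
      rw [this]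
    | mul c d =>
      have h3 := h fun _ => U4.x
      rw [a_val u4 u4_1 u4_2] at h3
      exact absurd h3 (by simp [T.val, u4])
  | mul a b =>
    cases t with
    | var m =>
      have h3 := h fun _ => U4.x
      rw [a_val u4 u4_1 u4_2] at h3
      exact absurd h3 (by simp [T.val, u4])
    | mul c d =>
      rw [a_val o h1 h2, a_val o h1 h2]
      have h4 : ∀ w : ℕ → U4, u4 (w (two a b).1) (w (two a b).2) =
          u4 (w (two c d).1) (w (two c d).2) := by
        intro w
        have := h w
        rwa [a_val u4 u4_1 u4_2, a_val u4 u4_1 u4_2] at this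
      generalize two a b = x at h4 ⊢
      generalize two c d = y at h4 ⊢
      obtain ⟨x1, x2⟩ := x
      obtain ⟨y1, y2⟩ := y
      simp only at h4 ⊢
      have e1 : x1 = y1 := by
        by_contra hne
        have h3 := h4 fun k => if k = x1 then U4.p else U4.m
        have hy : y1 ≠ x1 := fun e => hne e.symm
        simp only [if_true, if_neg hy] at h3
        have h5 : U4.p = U4.m := h3
        exact absurd h5 (by simp)
      subst e1
      have e2 : x2 = y2 := by
        by_contra hne
        by_cases hx : x2 = x1
        · have h3 := h4 fun k => if k = x1 then U4.x else U4.m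
          have hy : y2 ≠ x1 := fun e => hne (hx.trans e.symm)
          simp only [if_true, hx, if_neg hy] at h3
          exact absurd h3 (by simp [u4])
        · have h3 := h4 fun k => if k = x1 then U4.x else if k = x2 then U4.m else U4.p
          simp only [if_true, if_neg hx] at h3
          by_cases hy : y2 = x1
          · simp only [hy, if_true] at h3
            exact absurd h3 (by simp [u4])
          · simp only [if_neg hy, if_neg (fun e : y2 = x2 => hne e.symm)] at h3
            exact absurd h3 (by simp [u4])
      rw [e2]

/-! ### Leaf D -/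

/-- the numbers of occurrences of the letters and of the factors of length 2 -/
noncomputable def dat (p : ℕ) : T → ((ℕ ⊕ (ℕ × ℕ)) →₀ ZMod p)
  | .var n => Finsupp.single (Sum.inl n) 1
  | .mul s t => dat p s + Finsupp.single (Sum.inr (lst s, fst t)) 1 + dat p t

/-- the weights -/
def wt {p : ℕ} {I K : Type} (P : K → I → ZMod p) (v : ℕ → I × ZMod p × K) :
    ℕ ⊕ (ℕ × ℕ) → ZMod p :=
  Sum.elim (fun a => (v a).2.1) fun ab => P (v ab.1).2.2 (v ab.2).1

theorem rm_val {p : ℕ} {I K : Type} (P : K → I → ZMod p) (v : ℕ → I × ZMod p × K) (t : T) :
    t.val (rm p P) v = ((v (fst t)).1, Finsupp.linearCombination (ZMod p) (wt P v) (dat p t),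
      (v (lst t)).2.2) := by
  induction t with
  | var n =>
    simp [T.val, dat, fst, lst, wt]
  | mul s t ihs iht =>
    have h : (T.mul s t).val (rm p P) v = rm p P (s.val (rm p P) v) (t.val (rm p P) v) := rfl
    rw [h, ihs, iht]
    simp [rm, dat, fst, lst, wt, map_add, Finsupp.linearCombination_single]

theorem lc_single {p : ℕ} {X : Type} [DecidableEq X] (x : X) (d : X →₀ ZMod p) (w : X → ZMod p)
    (hw : ∀ y, w y = if y = x then 1 else 0) : Finsupp.linearCombination (ZMod p) w d = d x := by
  induction d using Finsupp.induction_linear with
  | zero => simp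
  | add f g hf hg => rw [map_add, hf, hg, Finsupp.add_apply]
  | single a b =>
    rw [Finsupp.linearCombination_single, hw, Finsupp.single_apply]
    split_ifs <;> simp

theorem leaf_D : Leaf_D := by
  classical
  intro p E hE I K P q hq v
  have h := hE q hq
  obtain ⟨s, t⟩ := q
  simp only [rm_val] at h ⊢
  have e1 : fst s = fst t := by
    have h1 := congrArg Prod.fst (h fun n => (decide (n = fst s), 0, false))
    simp only [decide_true] at h1
    exact (of_decide_eq_true h1.symm).symm
  have e2 : lst s = lst t := by
    have h1 := congrArg (fun x => x.2.2) (h fun n => (false, 0, decide (n = lst s)))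
    simp only [decide_true] at h1
    exact (of_decide_eq_true h1.symm).symm
  have e3 : dat p s = dat p t := by
    ext x
    rcases x with a | ⟨a, b⟩
    · have h1 := congrArg (fun x => x.2.1) (h fun n => (false, if n = a then 1 else 0, false))
      simp only at h1
      rw [lc_single (Sum.inl a), lc_single (Sum.inl a)] at h1
      · exact h1
      · intro y
        rcases y with c | c
        · simp [wt]
        · simp [wt, P2]
      · intro y
        rcases y with c | c
        · simp [wt]
        · simp [wt, P2]
    · have h1 := congrArg (fun x => x.2.1) (h fun n => (decide (n = b), 0, decide (n = a)))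
      simp only at h1
      rw [lc_single (Sum.inr (a, b)), lc_single (Sum.inr (a, b))] at h1
      · exact h1
      · intro y
        rcases y with c | c
        · simp [wt]
        · simp [wt, P2, Prod.ext_iff]
      · intro y
        rcases y with c | c
        · simp [wt]
        · simp [wt, P2, Prod.ext_iff]
  rw [e1, e2, e3]

end Pool.Agent.N649.SG.D
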